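import Mathlib

set_option autoImplicit false
set_option linter.unusedSectionVars false

namespace Pool.Agent.TH87.RVP

open Finset Classical

variable {V : Type} [Fintype V]

/-- the neighbourhood of a set -/
noncomputable def nb (K : SimpleGraph V) (D : Finset V) : Finset V :=
  univ.filter (fun y => y ∉ D ∧ ∃ x ∈ D, K.Adj x y)

theorem mem_nb (K : SimpleGraph V) (D : Finset V) (y : V) :
    y ∈ nb K D ↔ y ∉ D ∧ ∃ x ∈ D, K.Adj x y := by
  simp [nb]

/-- connected sets -/
def Cn (K : SimpleGraph V) (D : Finset V) : Prop :=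
  ∀ X ⊆ D, X.Nonempty → X ≠ D → ∃ x ∈ X, ∃ y ∈ D \ X, K.Adj x y

/-- the degree -/
noncomputable def dg (K : SimpleGraph V) (x : V) : ℕ := (univ.filter (fun y => K.Adj x y)).card

/-- `σ` maps `C` in `K` to `D` in `L`, with all adjacencies of the vertices of `C` -/
structure IsIso (K L : SimpleGraph V) (C D : Finset V) (σ : Equiv.Perm V) : Prop where
  mem : ∀ x, σ x ∈ D ↔ x ∈ C
  adj : ∀ x ∈ C, ∀ z, (L.Adj (σ x) (σ z) ↔ K.Adj x z)

namespace IsIso

variable {K L M : SimpleGraph V} {C D E : Finset V} {σ τ : Equiv.Perm V}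

theorem refl (K : SimpleGraph V) (C : Finset V) : IsIso K K C C (Equiv.refl V) :=
  ⟨fun _ => Iff.rfl, fun _ _ _ => Iff.rfl⟩

theorem symm (h : IsIso K L C D σ) : IsIso L K D C σ.symm := by
  refine ⟨fun x => ?_, fun x hx z => ?_⟩
  · rw [← h.mem, Equiv.apply_symm_apply]
  · have hx' : σ.symm x ∈ C := by rw [← h.mem, Equiv.apply_symm_apply]; exact hx
    have := h.adj _ hx' (σ.symm z)
    rw [Equiv.apply_symm_apply, Equiv.apply_symm_apply] at this
    exact this.symm

theorem trans (h : IsIso K L C D σ) (k : IsIso L M D E τ) : IsIso K M C E (σ.trans τ) := by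
  refine ⟨fun x => ?_, fun x hx z => ?_⟩
  · rw [Equiv.trans_apply, k.mem, h.mem]
  · rw [Equiv.trans_apply, Equiv.trans_apply, k.adj _ ((h.mem x).mpr hx), h.adj x hx]

theorem map_eq (h : IsIso K L C D σ) : C.map σ.toEmbedding = D := by
  ext x
  rw [mem_map_equiv, ← h.mem, Equiv.apply_symm_apply]

theorem card_eq (h : IsIso K L C D σ) : D.card = C.card := by
  rw [← h.map_eq, card_map]

theorem nb_mem (h : IsIso K L C D σ) (z : V) : σ z ∈ nb L D ↔ z ∈ nb K C := by
  rw [mem_nb, mem_nb, h.mem]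
  constructor
  · rintro ⟨h1, x, hx, hadj⟩
    have hx' : σ.symm x ∈ C := by rw [← h.mem, Equiv.apply_symm_apply]; exact hx
    refine ⟨h1, σ.symm x, hx', ?_⟩
    rw [← h.adj _ hx', Equiv.apply_symm_apply]
    exact hadj
  · rintro ⟨h1, x, hx, hadj⟩
    exact ⟨h1, σ x, (h.mem x).mpr hx, (h.adj x hx z).mpr hadj⟩

theorem dg_eq (h : IsIso K L C D σ) (x : V) (hx : x ∈ C) : dg L (σ x) = dg K x := by
  have h1 : (univ.filter (fun y => L.Adj (σ x) y)) =
      (univ.filter (fun y => K.Adj x y)).map σ.toEmbedding := by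
    ext y
    rw [mem_map_equiv, mem_filter, mem_filter]
    have := h.adj x hx (σ.symm y)
    rw [Equiv.apply_symm_apply] at this
    simp [this]
  unfold dg
  rw [h1, card_map]

theorem cn (h : IsIso K L C D σ) (hC : Cn K C) : Cn L D := by
  intro X hX hX0 hXD
  have hX' : ∀ x, x ∈ X.map σ.symm.toEmbedding ↔ σ x ∈ X := by
    intro x
    rw [mem_map_equiv]
    simp
  obtain ⟨x, hx, y, hy, hadj⟩ := hC (X.map σ.symm.toEmbedding) (by
      intro x hx
      rw [hX'] at hx
      exact (h.mem x).mp (hX hx)) (by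
      obtain ⟨x, hx⟩ := hX0
      exact ⟨σ.symm x, by rw [hX', Equiv.apply_symm_apply]; exact hx⟩) (by
      intro he
      apply hXD
      apply subset_antisymm hX
      intro x hx
      have h1 : σ.symm x ∈ C := by rw [← h.mem, Equiv.apply_symm_apply]; exact hx
      rw [← he, hX', Equiv.apply_symm_apply] at h1
      exact h1)
  rw [hX'] at hx
  rw [mem_sdiff, hX'] at hy
  have hxC : x ∈ C := (h.mem x).mp (hX hx)
  exact ⟨σ x, hx, σ y, mem_sdiff.mpr ⟨(h.mem y).mpr hy.1, hy.2⟩, (h.adj x hxC y).mpr hadj⟩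

end IsIso

/-- `σ` maps `C` in `K` to `D` in `L`, with all adjacencies of the vertices of `C` and of its
neighbours among each other -/
structure IsIso2 (K L : SimpleGraph V) (C D : Finset V) (σ : Equiv.Perm V) : Prop
    extends IsIso K L C D σ where
  adj2 : ∀ a ∈ nb K C, ∀ b ∈ nb K C, (L.Adj (σ a) (σ b) ↔ K.Adj a b)

namespace IsIso2

variable {K L M : SimpleGraph V} {C D E : Finset V} {σ τ : Equiv.Perm V}

theorem refl (K : SimpleGraph V) (C : Finset V) : IsIso2 K K C C (Equiv.refl V) :=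
  ⟨IsIso.refl K C, fun _ _ _ _ => Iff.rfl⟩

theorem symm (h : IsIso2 K L C D σ) : IsIso2 L K D C σ.symm := by
  refine ⟨h.toIsIso.symm, fun a ha b hb => ?_⟩
  have ha' : σ.symm a ∈ nb K C := by rw [← h.toIsIso.nb_mem, Equiv.apply_symm_apply]; exact ha
  have hb' : σ.symm b ∈ nb K C := by rw [← h.toIsIso.nb_mem, Equiv.apply_symm_apply]; exact hb
  have := h.adj2 _ ha' _ hb'
  rw [Equiv.apply_symm_apply, Equiv.apply_symm_apply] at this
  exact this.symm

theorem trans (h : IsIso2 K L C D σ) (k : IsIso2 L M D E τ) : IsIso2 K M C E (σ.trans τ) := by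
  refine ⟨h.toIsIso.trans k.toIsIso, fun a ha b hb => ?_⟩
  rw [Equiv.trans_apply, Equiv.trans_apply, k.adj2 _ ((h.toIsIso.nb_mem a).mpr ha) _
    ((h.toIsIso.nb_mem b).mpr hb), h.adj2 a ha b hb]

end IsIso2

/-- parallel sets: isomorphic over the neighbourhood -/
def Par (K : SimpleGraph V) (D D' : Finset V) : Prop :=
  ∃ σ : Equiv.Perm V, IsIso K K D D' σ ∧ ∀ a ∈ nb K D, σ a = a

theorem par_nb {K : SimpleGraph V} {D D' : Finset V} (h : Par K D D') : nb K D' = nb K D := by
  obtain ⟨σ, h1, h2⟩ := h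
  ext y
  constructor
  · intro hy
    have h3 : σ.symm y ∈ nb K D := by rw [← h1.nb_mem, Equiv.apply_symm_apply]; exact hy
    have h4 := h2 _ h3
    rw [Equiv.apply_symm_apply] at h4
    rw [h4]; exact h3
  · intro hy
    have := (h1.nb_mem y).mpr hy
    rwa [h2 y hy] at this

theorem par_iso2 {K : SimpleGraph V} {D D' : Finset V} (h : Par K D D') :
    ∃ σ : Equiv.Perm V, IsIso2 K K D D' σ ∧ ∀ a ∈ nb K D, σ a = a := by
  obtain ⟨σ, h1, h2⟩ := h
  exact ⟨σ, ⟨h1, fun a ha b hb => by rw [h2 a ha, h2 b hb]⟩, h2⟩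

theorem par_refl (K : SimpleGraph V) (D : Finset V) : Par K D D :=
  ⟨Equiv.refl V, IsIso.refl K D, fun _ _ => rfl⟩

theorem par_symm {K : SimpleGraph V} {D D' : Finset V} (h : Par K D D') : Par K D' D := by
  have hn := par_nb h
  obtain ⟨σ, h1, h2⟩ := h
  refine ⟨σ.symm, h1.symm, fun a ha => ?_⟩
  rw [hn] at ha
  rw [Equiv.symm_apply_eq]
  exact (h2 a ha).symm

theorem par_trans {K : SimpleGraph V} {D D' D'' : Finset V} (h : Par K D D') (k : Par K D' D'') :
    Par K D D'' := by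
  have hn := par_nb h
  obtain ⟨σ, h1, h2⟩ := h
  obtain ⟨τ, k1, k2⟩ := k
  refine ⟨σ.trans τ, h1.trans k1, fun a ha => ?_⟩
  rw [Equiv.trans_apply, h2 a ha, k2 a (by rw [hn]; exact ha)]

/-- the sets parallel to `D` -/
noncomputable def cl (K : SimpleGraph V) (D : Finset V) : Finset (Finset V) :=
  univ.filter (fun D' => Par K D D')

theorem mem_cl (K : SimpleGraph V) (D D' : Finset V) : D' ∈ cl K D ↔ Par K D D' := by
  simp [cl]

theorem cl_self (K : SimpleGraph V) (D : Finset V) : D ∈ cl K D := (mem_cl _ _ _).mpr (par_refl K D)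

theorem cl_eq {K : SimpleGraph V} {D D' : Finset V} (h : Par K D D') : cl K D' = cl K D := by
  ext E
  rw [mem_cl, mem_cl]
  exact ⟨fun k => par_trans h k, fun k => par_trans (par_symm h) k⟩

/-- crossing edges -/
theorem cross {K : SimpleGraph V} {D D' : Finset V} (hD' : Cn K D') (h : (D ∩ D').Nonempty)
    (hne : ¬ D' ⊆ D) : ∃ y ∈ D', y ∈ nb K D := by
  obtain ⟨x, hx, y, hy, hadj⟩ := hD' (D ∩ D') inter_subset_right h (fun he => hne (by
    rw [← he]; exact inter_subset_left))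
  rw [mem_sdiff, mem_inter, not_and] at hy
  refine ⟨y, hy.1, (mem_nb _ _ _).mpr ⟨fun h => hy.2 h hy.1, x, (mem_inter.mp hx).1, hadj⟩⟩

theorem par_disjoint {K : SimpleGraph V} {D D' : Finset V} (h : Par K D D') (hc : Cn K D')
    (hne : D ≠ D') : Disjoint D D' := by
  by_contra hcon
  have h1 : (D ∩ D').Nonempty := by
    rw [nonempty_iff_ne_empty]
    intro h2
    exact hcon (disjoint_iff_inter_eq_empty.mpr h2)
  have hcard : D'.card = D.card := by
    obtain ⟨σ, h2, _⟩ := h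
    exact h2.card_eq
  obtain ⟨y, hy, hyn⟩ := cross hc h1 (fun hs => hne (eq_of_subset_of_card_le hs hcard.ge).symm)
  rw [← par_nb h, mem_nb] at hyn
  exact hyn.1 hy

/-- vertices of the neighbourhood have large degree -/
theorem dg_nb {K : SimpleGraph V} {D : Finset V} (hc : Cn K D) (y : V) (hy : y ∈ nb K D) :
    (cl K D).card ≤ dg K y := by
  have hex : ∀ D' ∈ cl K D, ∃ x ∈ D', K.Adj y x := by
    intro D' hD'
    rw [mem_cl] at hD'
    rw [← par_nb hD', mem_nb] at hy
    obtain ⟨_, x, hx, hadj⟩ := hy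
    exact ⟨x, hx, hadj.symm⟩
  have : Nonempty V := ⟨y⟩
  choose! f hf1 hf2 using hex
  apply card_le_card_of_injOn f
  · intro D' hD'
    apply mem_coe.mpr
    exact mem_filter.mpr ⟨mem_univ _, hf2 D' hD'⟩
  · intro D1 h1 D2 h2 he
    by_contra hne
    have h3 := mem_coe.mp h1
    have h4 := mem_coe.mp h2
    rw [mem_cl] at h3 h4
    have h5 : Par K D1 D2 := par_trans (par_symm h3) h4
    have hc2 : Cn K D2 := by
      obtain ⟨σ, h6, _⟩ := h4
      exact h6.cn hc
    have h6 := par_disjoint h5 hc2 hne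
    have h7 := hf1 D1 (mem_coe.mp h1)
    rw [he] at h7
    exact Finset.disjoint_left.mp h6 h7 (hf1 D2 (mem_coe.mp h2))

end Pool.Agent.TH87.RVP
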