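import Pool.Agent.TH87.RVP.Basic

set_option autoImplicit false
set_option linter.unusedSectionVars false

namespace Pool.Agent.TH87.RVP

open Finset Classical

variable {V : Type} [Fintype V]

/-- the vertex `v` is isolated -/
def del (K : SimpleGraph V) (v : V) : SimpleGraph V where
  Adj x y := K.Adj x y ∧ x ≠ v ∧ y ≠ v
  symm := ⟨fun _ _ h => ⟨h.1.symm, h.2.2, h.2.1⟩⟩
  loopless := ⟨fun x h => K.loopless.irrefl x h.1⟩

theorem del_adj (K : SimpleGraph V) (v x y : V) :
    (del K v).Adj x y ↔ K.Adj x y ∧ x ≠ v ∧ y ≠ v := Iff.rfl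

theorem del_iso (K : SimpleGraph V) (v : V) (D : Finset V) (h1 : v ∉ D) (h2 : v ∉ nb K D) :
    IsIso K (del K v) D D (Equiv.refl V) := by
  refine ⟨fun _ => Iff.rfl, fun x hx z => ?_⟩
  rw [Equiv.refl_apply, Equiv.refl_apply, del_adj]
  refine ⟨fun h => h.1, fun h => ⟨h, fun e => h1 (e ▸ hx), fun e => ?_⟩⟩
  subst e
  exact h2 ((mem_nb _ _ _).mpr ⟨h1, x, hx, h⟩)

theorem del_iso2 (K : SimpleGraph V) (v : V) (D : Finset V) (h1 : v ∉ D) (h2 : v ∉ nb K D) :
    IsIso2 K (del K v) D D (Equiv.refl V) := by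
  refine ⟨del_iso K v D h1 h2, fun a ha b hb => ?_⟩
  rw [Equiv.refl_apply, Equiv.refl_apply, del_adj]
  exact ⟨fun h => h.1, fun h => ⟨h, fun e => h2 (e ▸ ha), fun e => h2 (e ▸ hb)⟩⟩

theorem nb_del (K : SimpleGraph V) (v : V) (D : Finset V) (h1 : v ∉ D) (h2 : v ∉ nb K D) :
    nb (del K v) D = nb K D := by
  ext z
  have := (del_iso K v D h1 h2).nb_mem z
  rwa [Equiv.refl_apply] at this

theorem iso_del_iff (K : SimpleGraph V) (v : V) (D D' : Finset V) (σ : Equiv.Perm V)
    (h1 : v ∉ D) (h2 : v ∉ nb K D) (h1' : v ∉ D') (h2' : v ∉ nb K D') :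
    IsIso (del K v) (del K v) D D' σ ↔ IsIso K K D D' σ := by
  have e1 := del_iso K v D h1 h2
  have e2 := del_iso K v D' h1' h2'
  constructor
  · intro h
    exact (e1.trans h).trans e2.symm
  · intro h
    exact (e1.symm.trans h).trans e2

theorem par_del_iff (K : SimpleGraph V) (v : V) (D D' : Finset V)
    (h1 : v ∉ D) (h2 : v ∉ nb K D) (h1' : v ∉ D') (h2' : v ∉ nb K D') :
    Par (del K v) D D' ↔ Par K D D' := by
  unfold Par
  rw [nb_del K v D h1 h2]
  constructor
  · rintro ⟨σ, h, k⟩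
    exact ⟨σ, (iso_del_iff K v D D' σ h1 h2 h1' h2').mp h, k⟩
  · rintro ⟨σ, h, k⟩
    exact ⟨σ, (iso_del_iff K v D D' σ h1 h2 h1' h2').mpr h, k⟩

/-- the copies of the pattern `(R, C)` in `K` -/
noncomputable def cp (R : SimpleGraph V) (C : Finset V) (K : SimpleGraph V) :
    Finset (Finset V) :=
  univ.filter (fun D => ∃ σ : Equiv.Perm V, IsIso2 R K C D σ)

theorem mem_cp (R : SimpleGraph V) (C : Finset V) (K : SimpleGraph V) (D : Finset V) :
    D ∈ cp R C K ↔ ∃ σ : Equiv.Perm V, IsIso2 R K C D σ := by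
  simp [cp]

/-- the classes of parallel copies -/
noncomputable def cs (R : SimpleGraph V) (C : Finset V) (K : SimpleGraph V) :
    Finset (Finset (Finset V)) :=
  (cp R C K).image (cl K)

theorem mem_cs (R : SimpleGraph V) (C : Finset V) (K : SimpleGraph V) (P : Finset (Finset V)) :
    P ∈ cs R C K ↔ ∃ D ∈ cp R C K, cl K D = P := by
  simp [cs]

/-- the hypotheses on the pattern -/
structure Pat (R : SimpleGraph V) (C : Finset V) (δ : ℕ) : Prop where
  ne : C.Nonempty
  cn : Cn R C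
  nb : (nb R C).Nonempty
  dg : ∀ x ∈ C, dg R x ≤ δ

section

variable {R : SimpleGraph V} {C : Finset V} {δ : ℕ} (hp : Pat R C δ)

include hp

theorem cp_cn {K : SimpleGraph V} {D : Finset V} (hD : D ∈ cp R C K) : Cn K D := by
  obtain ⟨σ, h⟩ := (mem_cp _ _ _ _).mp hD
  exact h.cn hp.cn

theorem cp_ne {K : SimpleGraph V} {D : Finset V} (hD : D ∈ cp R C K) : D.Nonempty := by
  obtain ⟨σ, h⟩ := (mem_cp _ _ _ _).mp hD
  obtain ⟨x, hx⟩ := hp.ne
  exact ⟨σ x, (h.mem x).mpr hx⟩

theorem cp_nb {K : SimpleGraph V} {D : Finset V} (hD : D ∈ cp R C K) :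
    (Pool.Agent.TH87.RVP.nb K D).Nonempty := by
  obtain ⟨σ, h⟩ := (mem_cp _ _ _ _).mp hD
  obtain ⟨x, hx⟩ := hp.nb
  exact ⟨σ x, (h.nb_mem x).mpr hx⟩

theorem cp_dg {K : SimpleGraph V} {D : Finset V} (hD : D ∈ cp R C K) (x : V) (hx : x ∈ D) :
    Pool.Agent.TH87.RVP.dg K x ≤ δ := by
  obtain ⟨σ, h⟩ := (mem_cp _ _ _ _).mp hD
  obtain ⟨y, rfl⟩ := σ.surjective x
  have hy := (h.mem y).mp hx
  rw [h.dg_eq y hy]
  exact hp.dg y hy

omit hp in
theorem cp_card {K : SimpleGraph V} {D : Finset V} (hD : D ∈ cp R C K) : D.card = C.card := by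
  obtain ⟨σ, h⟩ := (mem_cp _ _ _ _).mp hD
  exact h.card_eq

omit hp in
theorem cp_par {K : SimpleGraph V} {D D' : Finset V} (hD : D ∈ cp R C K) (h : Par K D D') :
    D' ∈ cp R C K := by
  obtain ⟨σ, h1⟩ := (mem_cp _ _ _ _).mp hD
  obtain ⟨τ, h2, _⟩ := par_iso2 h
  exact (mem_cp _ _ _ _).mpr ⟨σ.trans τ, h1.trans h2⟩

/-- copies with many parallel copies are disjoint -/
theorem big_disjoint {K : SimpleGraph V} {D D' : Finset V} (hD : D ∈ cp R C K)
    (hD' : D' ∈ cp R C K) (hb : δ < (cl K D).card) (x : V) (hx : x ∈ D) (hx' : x ∈ D') :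
    D' = D := by
  by_contra hne
  have hs : ¬ D' ⊆ D := fun hs =>
    hne (eq_of_subset_of_card_le hs (by rw [cp_card hD, cp_card hD']))
  obtain ⟨y, hy, hyn⟩ := cross (cp_cn hp hD') ⟨x, mem_inter.mpr ⟨hx, hx'⟩⟩ hs
  have h1 := dg_nb (cp_cn hp hD) y hyn
  have h2 := cp_dg hp hD' y hy
  omega

/-- vertices of small degree are not in the neighbourhood of a copy with many parallel copies -/
theorem big_nb {K : SimpleGraph V} {D : Finset V} (hD : D ∈ cp R C K) (v : V)
    (hv : Pool.Agent.TH87.RVP.dg K v < (cl K D).card) : v ∉ Pool.Agent.TH87.RVP.nb K D :=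
  fun h => by
    have := dg_nb (cp_cn hp hD) v h
    omega

theorem notMem_cp_del {K : SimpleGraph V} {v : V} {D : Finset V} (hD : D ∈ cp R C (del K v)) :
    v ∉ D := by
  intro hv
  have hcn := cp_cn hp hD
  by_cases h : D = {v}
  · obtain ⟨y, hy⟩ := cp_nb hp hD
    rw [mem_nb] at hy
    obtain ⟨_, x, hx, hadj⟩ := hy
    rw [h, mem_singleton] at hx
    exact hadj.2.1 hx
  · obtain ⟨x, hx, y, _, hadj⟩ := hcn {v} (singleton_subset_iff.mpr hv) (singleton_nonempty v)
      (fun e => h e.symm)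
    rw [mem_singleton] at hx
    exact hadj.2.1 hx

theorem cp_del_iff {K : SimpleGraph V} {v : V} {D : Finset V}
    (h : v ∉ Pool.Agent.TH87.RVP.nb K D) :
    D ∈ cp R C (del K v) ↔ D ∈ cp R C K ∧ v ∉ D := by
  constructor
  · intro hD
    have hv := notMem_cp_del hp hD
    obtain ⟨σ, h1⟩ := (mem_cp _ _ _ _).mp hD
    exact ⟨(mem_cp _ _ _ _).mpr ⟨_, h1.trans (del_iso2 K v D hv h).symm⟩, hv⟩
  · rintro ⟨hD, hv⟩
    obtain ⟨σ, h1⟩ := (mem_cp _ _ _ _).mp hD
    exact (mem_cp _ _ _ _).mpr ⟨_, h1.trans (del_iso2 K v D hv h)⟩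

/-- if `v` is in a copy with many parallel copies then no copy arises by the deletion of `v` -/
theorem notMem_nb_del {K : SimpleGraph V} {v : V} {D D' : Finset V} (hD : D ∈ cp R C K)
    (hv : v ∈ D) (hb : δ + 2 ≤ (cl K D).card) (hD' : D' ∈ cp R C (del K v)) :
    v ∉ Pool.Agent.TH87.RVP.nb K D' := by
  intro hvn
  have hvD' := notMem_cp_del hp hD'
  rw [mem_nb] at hvn
  obtain ⟨_, x, hx, hadj⟩ := hvn
  -- no vertex of `D'` is in the neighbourhood of `D`
  have hno : ∀ y ∈ D', y ∉ Pool.Agent.TH87.RVP.nb K D := by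
    intro y hy hyn
    have h1 := dg_nb (cp_cn hp hD) y hyn
    have h2 := cp_dg hp hD' y hy
    have h3 : Pool.Agent.TH87.RVP.dg K y ≤ Pool.Agent.TH87.RVP.dg (del K v) y + 1 := by
      unfold Pool.Agent.TH87.RVP.dg
      have h4 : (univ.filter (fun z => K.Adj y z)) ⊆
          insert v (univ.filter (fun z => (del K v).Adj y z)) := by
        intro z hz
        rw [mem_insert, mem_filter]
        by_cases hzv : z = v
        · exact Or.inl hzv
        · exact Or.inr ⟨mem_univ _, (mem_filter.mp hz).2, fun e => hvD' (e ▸ hy), hzv⟩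
      exact (card_le_card h4).trans (card_insert_le _ _)
    omega
  have hxD : x ∈ D := by
    by_contra hxD
    exact hno x hx ((mem_nb _ _ _).mpr ⟨hxD, v, hv, hadj.symm⟩)
  have hsub : D' ⊆ D := by
    by_contra hs
    obtain ⟨y, hy, hyn⟩ := cross (cp_cn hp hD') ⟨x, mem_inter.mpr ⟨hxD, hx⟩⟩ hs
    apply hno y hy
    rw [mem_nb] at hyn ⊢
    obtain ⟨h1, z, hz, hadj'⟩ := hyn
    exact ⟨h1, z, hz, hadj'.1⟩
  have h1 : D' ⊂ D := ⟨hsub, fun h => hvD' (h hv)⟩
  have h2 := card_lt_card h1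
  rw [cp_card hD, cp_card hD'] at h2
  omega

theorem cl_del {K : SimpleGraph V} {v : V} {D D1 : Finset V} (hD : D ∈ cp R C K)
    (hv : v ∈ D) (hb : δ + 2 ≤ (cl K D).card) (hD1 : D1 ∈ cp R C (del K v)) :
    cl (del K v) D1 = (cl K D1).filter (fun E => v ∉ E) := by
  have h1 := notMem_cp_del hp hD1
  have h2 := notMem_nb_del hp hD hv hb hD1
  ext E
  rw [mem_cl, mem_filter, mem_cl]
  constructor
  · intro h
    have hE := cp_par hD1 h
    have h3 := notMem_cp_del hp hE
    have h4 := notMem_nb_del hp hD hv hb hE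
    exact ⟨(par_del_iff K v D1 E h1 h2 h3 h4).mp h, h3⟩
  · rintro ⟨h, h3⟩
    have h4 : v ∉ Pool.Agent.TH87.RVP.nb K E := by rw [par_nb h]; exact h2
    exact (par_del_iff K v D1 E h1 h2 h3 h4).mpr h

/-- the classes after the deletion of a vertex of a copy with many parallel copies -/
theorem cs_del {K : SimpleGraph V} {v : V} {D : Finset V} (hD : D ∈ cp R C K)
    (hv : v ∈ D) (hb : δ + 2 ≤ (cl K D).card) (P : Finset (Finset V)) (hP : δ < P.card) :
    P ∈ cs R C (del K v) ↔ (P ∈ cs R C K ∧ P ≠ cl K D) ∨ P = (cl K D).erase D := by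
  constructor
  · intro h
    obtain ⟨D1, hD1, rfl⟩ := (mem_cs _ _ _ _).mp h
    have h2 := notMem_nb_del hp hD hv hb hD1
    obtain ⟨hD1K, h1⟩ := (cp_del_iff hp h2).mp hD1
    rw [cl_del hp hD hv hb hD1] at hP ⊢
    have hQ : δ < (cl K D1).card := lt_of_lt_of_le hP (card_filter_le _ _)
    by_cases hp1 : Par K D D1
    · right
      rw [cl_eq hp1]
      ext E
      rw [mem_filter, mem_erase]
      constructor
      · rintro ⟨h3, h4⟩
        exact ⟨fun e => h4 (e ▸ hv), h3⟩
      · rintro ⟨h3, h4⟩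
        refine ⟨h4, fun h5 => h3 ?_⟩
        exact big_disjoint hp hD (cp_par hD ((mem_cl _ _ _).mp h4)) (by omega) v hv h5
    · left
      have h3 : (cl K D1).filter (fun E => v ∉ E) = cl K D1 := by
        rw [filter_eq_self]
        intro E hE hvE
        apply hp1
        have h4 := (mem_cl _ _ _).mp hE
        have h5 := big_disjoint hp hD (cp_par hD1K h4) (by omega) v hv hvE
        rw [← h5]
        exact par_symm h4
      rw [h3]
      refine ⟨(mem_cs _ _ _ _).mpr ⟨D1, hD1K, rfl⟩, fun he => hp1 ?_⟩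
      have h4 : D ∈ cl K D1 := by rw [he]; exact cl_self K D
      exact par_symm ((mem_cl _ _ _).mp h4)
  · rintro (⟨h, hne⟩ | rfl)
    · obtain ⟨D1, hD1, rfl⟩ := (mem_cs _ _ _ _).mp h
      have hnv : ∀ E ∈ cl K D1, v ∉ E := by
        intro E hE hvE
        have h4 := (mem_cl _ _ _).mp hE
        have h5 := big_disjoint hp hD (cp_par hD1 h4) (by omega) v hv hvE
        apply hne
        rw [← cl_eq h4, h5]
      have h2 : v ∉ Pool.Agent.TH87.RVP.nb K D1 := by
        apply big_nb hp hD1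
        have := cp_dg hp hD v hv
        omega
      have h3 : D1 ∈ cp R C (del K v) := (cp_del_iff hp h2).mpr ⟨hD1, hnv D1 (cl_self K D1)⟩
      refine (mem_cs _ _ _ _).mpr ⟨D1, h3, ?_⟩
      rw [cl_del hp hD hv hb h3, filter_eq_self]
      exact hnv
    · have h1 : ((cl K D).erase D).Nonempty := card_pos.mp (by omega)
      obtain ⟨D1, hD1⟩ := h1
      rw [mem_erase, mem_cl] at hD1
      have hD1K := cp_par hD hD1.2
      have h2 : v ∉ Pool.Agent.TH87.RVP.nb K D1 := by
        rw [par_nb hD1.2, mem_nb]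
        exact fun h => h.1 hv
      have h4 : v ∉ D1 := fun h5 => hD1.1 (big_disjoint hp hD hD1K (by omega) v hv h5)
      have h3 : D1 ∈ cp R C (del K v) := (cp_del_iff hp h2).mpr ⟨hD1K, h4⟩
      refine (mem_cs _ _ _ _).mpr ⟨D1, h3, ?_⟩
      rw [cl_del hp hD hv hb h3, cl_eq hD1.2]
      ext E
      rw [mem_filter, mem_erase]
      constructor
      · rintro ⟨h5, h6⟩
        exact ⟨fun e => h6 (e ▸ hv), h5⟩
      · rintro ⟨h5, h6⟩
        refine ⟨h6, fun h7 => h5 ?_⟩
        exact big_disjoint hp hD (cp_par hD ((mem_cl _ _ _).mp h6)) (by omega) v hv h7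

end

/-- a weighted sum over the classes -/
noncomputable def W (R : SimpleGraph V) (C : Finset V) (g : ℕ → ℕ) (K : SimpleGraph V) : ℕ :=
  ∑ P ∈ cs R C K, g P.card

section

variable {R : SimpleGraph V} {C : Finset V} {δ : ℕ} (hp : Pat R C δ)

include hp

theorem W_del {K : SimpleGraph V} {v : V} {D : Finset V} (hD : D ∈ cp R C K)
    (hv : v ∈ D) (hb : δ + 2 ≤ (cl K D).card) (g : ℕ → ℕ) (hg : ∀ j, j ≤ δ → g j = 0) :
    W R C g (del K v) + g (cl K D).card = W R C g K + g ((cl K D).card - 1) := by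
  have hr : ∀ L, W R C g L = ∑ P ∈ (cs R C L).filter (fun P => δ < P.card), g P.card := by
    intro L
    unfold W
    rw [sum_filter]
    apply sum_congr rfl
    intro P _
    split_ifs with h
    · rfl
    · exact hg _ (by omega)
  rw [hr, hr]
  have hP0 : cl K D ∈ (cs R C K).filter (fun P => δ < P.card) :=
    mem_filter.mpr ⟨(mem_cs _ _ _ _).mpr ⟨D, hD, rfl⟩, by omega⟩
  have hcard : ((cl K D).erase D).card = (cl K D).card - 1 := card_erase_of_mem (cl_self K D)
  have hnot : (cl K D).erase D ∉ cs R C K := by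
    intro h
    obtain ⟨D1, hD1, he⟩ := (mem_cs _ _ _ _).mp h
    have h1 : D1 ∈ (cl K D).erase D := by rw [← he]; exact cl_self K D1
    rw [mem_erase, mem_cl] at h1
    have h2 := cl_eq h1.2
    rw [h2] at he
    have h3 : D ∈ (cl K D).erase D := by rw [← he]; exact cl_self K D
    exact (mem_erase.mp h3).1 rfl
  have hset : (cs R C (del K v)).filter (fun P => δ < P.card) =
      insert ((cl K D).erase D) (((cs R C K).filter (fun P => δ < P.card)).erase (cl K D)) := by
    ext P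
    rw [mem_insert, mem_erase, mem_filter, mem_filter]
    constructor
    · rintro ⟨h1, h2⟩
      rcases (cs_del hp hD hv hb P h2).mp h1 with h3 | h3
      · exact Or.inr ⟨h3.2, h3.1, h2⟩
      · exact Or.inl h3
    · rintro (h | ⟨h1, h2, h3⟩)
      · have h2 : δ < P.card := by rw [h, hcard]; omega
        exact ⟨(cs_del hp hD hv hb P h2).mpr (Or.inr h), h2⟩
      · exact ⟨(cs_del hp hD hv hb P h3).mpr (Or.inl ⟨h2, h1⟩), h3⟩
  rw [hset, sum_insert (fun h => hnot (mem_filter.mp (mem_erase.mp h).2).1), hcard]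
  have h1 := sum_erase_add _ (fun P => g P.card) hP0
  omega

/-- the potential does not decrease if a vertex of small degree outside the large classes is
deleted -/
theorem T_le {K : SimpleGraph V} {v : V} (hdv : dg K v ≤ δ)
    (hno : ∀ D ∈ cp R C K, δ + 2 ≤ (cl K D).card → v ∉ D) :
    W R C (fun j => j - (δ + 1)) K ≤ W R C (fun j => j - (δ + 1)) (del K v) := by
  have hr : W R C (fun j => j - (δ + 1)) K =
      ∑ P ∈ (cs R C K).filter (fun P => δ + 2 ≤ P.card), (P.card - (δ + 1)) := by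
    unfold W
    rw [sum_filter]
    apply sum_congr rfl
    intro P _
    split_ifs with h
    · rfl
    · show P.card - (δ + 1) = 0
      omega
  rw [hr]
  -- the class of the deleted graph
  have hkey : ∀ D ∈ cp R C K, δ + 2 ≤ (cl K D).card →
      D ∈ cp R C (del K v) ∧ cl K D ⊆ cl (del K v) D := by
    intro D hD hb
    have h1 := hno D hD hb
    have h2 : v ∉ nb K D := big_nb hp hD v (by omega)
    refine ⟨(cp_del_iff hp h2).mpr ⟨hD, h1⟩, fun E hE => ?_⟩
    have hEp := (mem_cl _ _ _).mp hE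
    have h3 : v ∉ E := hno E (cp_par hD hEp) (by rw [cl_eq hEp]; exact hb)
    have h4 : v ∉ nb K E := by rw [par_nb hEp]; exact h2
    exact (mem_cl _ _ _).mpr ((par_del_iff K v D E h1 h2 h3 h4).mpr hEp)
  have hrep : ∀ P ∈ (cs R C K).filter (fun P => δ + 2 ≤ P.card), ∃ D ∈ cp R C K, cl K D = P := by
    intro P hP
    exact (mem_cs _ _ _ _).mp (mem_filter.mp hP).1
  choose! f hf1 hf2 using hrep
  have hb : ∀ P ∈ (cs R C K).filter (fun P => δ + 2 ≤ P.card), δ + 2 ≤ (cl K (f P)).card := by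
    intro P hP
    rw [hf2 P hP]
    exact (mem_filter.mp hP).2
  have hinj : Set.InjOn (fun P => cl (del K v) (f P))
      ((cs R C K).filter (fun P => δ + 2 ≤ P.card) : Finset (Finset (Finset V))) := by
    intro P hP Q hQ he
    have hP' := mem_coe.mp hP
    have hQ' := mem_coe.mp hQ
    have h1 : f Q ∈ cl (del K v) (f P) := by
      have : cl (del K v) (f P) = cl (del K v) (f Q) := he
      rw [this]; exact cl_self _ _
    have h2 := (mem_cl _ _ _).mp h1
    have a1 := hno _ (hf1 P hP') (hb P hP')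
    have a2 : v ∉ nb K (f P) := big_nb hp (hf1 P hP') v (by have := hb P hP'; omega)
    have a3 := hno _ (hf1 Q hQ') (hb Q hQ')
    have a4 : v ∉ nb K (f Q) := big_nb hp (hf1 Q hQ') v (by have := hb Q hQ'; omega)
    have h3 := (par_del_iff K v _ _ a1 a2 a3 a4).mp h2
    rw [← hf2 P hP', ← hf2 Q hQ']
    exact (cl_eq h3).symm
  unfold W
  calc ∑ P ∈ (cs R C K).filter (fun P => δ + 2 ≤ P.card), (P.card - (δ + 1))
      ≤ ∑ P ∈ (cs R C K).filter (fun P => δ + 2 ≤ P.card),
          ((cl (del K v) (f P)).card - (δ + 1)) := by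
        apply sum_le_sum
        intro P hP
        have h1 := card_le_card (hkey _ (hf1 P hP) (hb P hP)).2
        rw [hf2 P hP] at h1
        omega
    _ = ∑ Q ∈ ((cs R C K).filter (fun P => δ + 2 ≤ P.card)).image
          (fun P => cl (del K v) (f P)), (Q.card - (δ + 1)) := by
        rw [sum_image hinj]
    _ ≤ ∑ P ∈ cs R C (del K v), (P.card - (δ + 1)) := by
        apply sum_le_sum_of_subset
        intro Q hQ
        obtain ⟨P, hP, rfl⟩ := mem_image.mp hQ
        exact (mem_cs _ _ _ _).mpr ⟨f P, (hkey _ (hf1 P hP) (hb P hP)).1, rfl⟩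

end

/-- isomorphic graphs -/
def GI (K L : SimpleGraph V) (τ : Equiv.Perm V) : Prop := ∀ x y, L.Adj (τ x) (τ y) ↔ K.Adj x y

theorem gi_iso {K L : SimpleGraph V} {τ : Equiv.Perm V} (h : GI K L τ) (D : Finset V) :
    IsIso K L D (D.map τ.toEmbedding) τ :=
  ⟨fun x => by rw [mem_map_equiv, Equiv.symm_apply_apply], fun x _ z => h x z⟩

theorem gi_iso2 {K L : SimpleGraph V} {τ : Equiv.Perm V} (h : GI K L τ) (D : Finset V) :
    IsIso2 K L D (D.map τ.toEmbedding) τ :=
  ⟨gi_iso h D, fun a _ b _ => h a b⟩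

theorem gi_symm {K L : SimpleGraph V} {τ : Equiv.Perm V} (h : GI K L τ) : GI L K τ.symm := by
  intro x y
  rw [← h, Equiv.apply_symm_apply, Equiv.apply_symm_apply]

theorem gi_par {K L : SimpleGraph V} {τ : Equiv.Perm V} (h : GI K L τ) {D E : Finset V}
    (hDE : Par K D E) : Par L (D.map τ.toEmbedding) (E.map τ.toEmbedding) := by
  obtain ⟨σ, h1, h2⟩ := hDE
  refine ⟨τ.symm.trans (σ.trans τ), ((gi_iso h D).symm.trans h1).trans (gi_iso h E), fun a ha => ?_⟩
  have h3 : τ.symm a ∈ nb K D := by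
    rw [← (gi_iso h D).nb_mem, Equiv.apply_symm_apply]; exact ha
  rw [Equiv.trans_apply, Equiv.trans_apply, h2 _ h3, Equiv.apply_symm_apply]

theorem map_map_symm (τ : Equiv.Perm V) (D : Finset V) :
    (D.map τ.toEmbedding).map τ.symm.toEmbedding = D := by
  ext x
  rw [mem_map_equiv, mem_map_equiv]
  simp

theorem gi_par_iff {K L : SimpleGraph V} {τ : Equiv.Perm V} (h : GI K L τ) (D E : Finset V) :
    Par L (D.map τ.toEmbedding) (E.map τ.toEmbedding) ↔ Par K D E := by
  constructor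
  · intro h1
    have := gi_par (gi_symm h) h1
    rwa [map_map_symm, map_map_symm] at this
  · exact gi_par h

theorem gi_cl {K L : SimpleGraph V} {τ : Equiv.Perm V} (h : GI K L τ) (D : Finset V) :
    cl L (D.map τ.toEmbedding) = (cl K D).image (fun E => E.map τ.toEmbedding) := by
  ext E
  rw [mem_cl, mem_image]
  constructor
  · intro h1
    have h2 : (E.map τ.symm.toEmbedding).map τ.toEmbedding = E := by
      have := map_map_symm τ.symm E
      rwa [Equiv.symm_symm] at this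
    refine ⟨E.map τ.symm.toEmbedding, ?_, h2⟩
    rw [mem_cl, ← gi_par_iff h, h2]
    exact h1
  · rintro ⟨E', hE', rfl⟩
    exact gi_par h ((mem_cl _ _ _).mp hE')

theorem gi_cl_card {K L : SimpleGraph V} {τ : Equiv.Perm V} (h : GI K L τ) (D : Finset V) :
    (cl L (D.map τ.toEmbedding)).card = (cl K D).card := by
  rw [gi_cl h, card_image_of_injective _ (Finset.map_injective _)]

theorem gi_cp {R K L : SimpleGraph V} {C : Finset V} {τ : Equiv.Perm V} (h : GI K L τ)
    (D : Finset V) : D.map τ.toEmbedding ∈ cp R C L ↔ D ∈ cp R C K := by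
  rw [mem_cp, mem_cp]
  constructor
  · rintro ⟨σ, h1⟩
    exact ⟨_, h1.trans (gi_iso2 h D).symm⟩
  · rintro ⟨σ, h1⟩
    exact ⟨_, h1.trans (gi_iso2 h D)⟩

theorem gi_cs {R K L : SimpleGraph V} {C : Finset V} {τ : Equiv.Perm V} (h : GI K L τ) :
    cs R C L = (cs R C K).image (fun P => P.image (fun E => E.map τ.toEmbedding)) := by
  ext P
  rw [mem_cs, mem_image]
  constructor
  · rintro ⟨D, hD, rfl⟩
    have h2 : (D.map τ.symm.toEmbedding).map τ.toEmbedding = D := by
      have := map_map_symm τ.symm D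
      rwa [Equiv.symm_symm] at this
    refine ⟨cl K (D.map τ.symm.toEmbedding), (mem_cs _ _ _ _).mpr ⟨D.map τ.symm.toEmbedding, ?_,
      rfl⟩, ?_⟩
    · rw [← gi_cp h, h2]; exact hD
    · rw [← gi_cl h, h2]
  · rintro ⟨Q, hQ, rfl⟩
    obtain ⟨D, hD, rfl⟩ := (mem_cs _ _ _ _).mp hQ
    exact ⟨D.map τ.toEmbedding, (gi_cp h D).mpr hD, gi_cl h D⟩

theorem gi_W {R K L : SimpleGraph V} {C : Finset V} {τ : Equiv.Perm V} (h : GI K L τ)
    (g : ℕ → ℕ) : W R C g L = W R C g K := by
  unfold W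
  rw [gi_cs h, sum_image]
  · apply sum_congr rfl
    intro P _
    rw [card_image_of_injective _ (Finset.map_injective _)]
  · intro P _ Q _ he
    exact Finset.image_injective (Finset.map_injective _) he

end Pool.Agent.TH87.RVP
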