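import Pool.Agent.TH87.RVP.Iso
import Pool.Agent.TH87.RVM.Disc
import Pool.Agent.TH87.RVE.Fin

set_option autoImplicit false
set_option linter.unusedSectionVars false

namespace Pool.Agent.TH87.RVP

open Finset Classical
open Pool.Agent.H234RC (Hypo NonIso Reconstructible)
open Pool.Agent.TH87.RVE (comps comp comp_mem_comps comp_self mem_comp rch_closed rec_of)
open Pool.Agent.TH87.RVM (KG HypR kelly_disc)
open Pool.Agent.TH87.RVC (dS dS_eq)

variable {V : Type} [Fintype V]

theorem hypo_gi {G H : SimpleGraph V} {π : V → Equiv.Perm V} (hH : Hypo G H π) (v : V) :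
    GI (del G v) (del H v) (π v) := by
  intro x y
  have e : ∀ z, π v z ≠ v ↔ z ≠ v := fun z => by
    have h1 : π v z = v ↔ z = v := by
      constructor
      · intro h
        apply (π v).injective
        rw [h, hH.fix]
      · intro h
        rw [h, hH.fix]
    exact not_congr h1
  rw [del_adj, del_adj, e, e]
  constructor
  · rintro ⟨h1, h2, h3⟩
    exact ⟨(hH.adj v x y h2 h3).mp h1, h2, h3⟩
  · rintro ⟨h1, h2, h3⟩
    exact ⟨(hH.adj v x y h2 h3).mpr h1, h2, h3⟩

theorem hypo_dg {G H : SimpleGraph V} {π : V → Equiv.Perm V} (hH : Hypo G H π)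
    (h3 : 3 ≤ Fintype.card V) (v : V) : dg G v = dg H v := by
  have := dS_eq hH univ (fun _ _ _ _ => mem_univ _) (by rw [card_univ]; exact h3) v (mem_univ _)
  exact this

/-- two nonempty parts without edges between them -/
theorem disc_iso {G H : SimpleGraph V} {π : V → Equiv.Perm V} (hH : Hypo G H π)
    (h3 : 3 ≤ Fintype.card V) (A : Finset V) (hA : A.Nonempty) (hB : ∃ b, b ∉ A)
    (h : ∀ x ∈ A, ∀ y, y ∉ A → ¬ G.Adj x y) : ∃ σ : Equiv.Perm V, ∀ x y,
      H.Adj (σ x) (σ y) ↔ G.Adj x y := by
  apply kelly_disc G.Adj H.Adj π ⟨hH.fix, hH.adj⟩ h3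
  obtain ⟨a, ha⟩ := hA
  obtain ⟨b, hb⟩ := hB
  have h1 : 1 < (comps (KG G.Adj) univ).card := by
    rw [one_lt_card]
    refine ⟨comp (KG G.Adj) univ a, comp_mem_comps _ _ a (mem_univ _), comp (KG G.Adj) univ b,
      comp_mem_comps _ _ b (mem_univ _), ?_⟩
    intro he
    have h2 := comp_self (KG G.Adj) univ b (mem_univ _)
    rw [← he] at h2
    have h3 := rch_closed (KG G.Adj) univ A (fun x hx y _ hadj => by
      by_contra hy
      rcases hadj.2 with h4 | h4
      · exact h x hx y hy h4
      · exact h x hx y hy h4.symm) ha ((mem_comp (KG G.Adj) _ _ _).mp h2).2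
    exact hb h3.1
  exact h1

theorem cn_of_connected (G : SimpleGraph V) (C : Finset V)
    (h : (G.induce (C : Set V)).Connected) : C.Nonempty ∧ Cn G C := by
  constructor
  · obtain ⟨x⟩ := h.nonempty
    exact ⟨x.1, mem_coe.mp x.2⟩
  · intro X hX hX0 hne
    obtain ⟨x, hx⟩ := hX0
    obtain ⟨y, hy, hyX⟩ : ∃ y ∈ C, y ∉ X := by
      by_contra hcon
      push Not at hcon
      exact hne (subset_antisymm hX hcon)
    obtain ⟨p⟩ := h.preconnected ⟨x, mem_coe.mpr (hX hx)⟩ ⟨y, mem_coe.mpr hy⟩
    obtain ⟨d, _, h1, h2⟩ := p.exists_boundary_dart {z | z.1 ∈ X} hx hyX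
    exact ⟨d.fst.1, h1, d.snd.1, mem_sdiff.mpr ⟨mem_coe.mp d.snd.2, h2⟩, d.adj⟩

section

variable {G H : SimpleGraph V} {π : V → Equiv.Perm V} (hH : Hypo G H π) (hN : NonIso G H)
  {C : Finset V} {δ : ℕ}

/-- many parallel sets: the order is at least three -/
theorem three_le {D : Finset V} (hD : Cn G D) (hne : D.Nonempty) (h : 3 ≤ (cl G D).card) :
    3 ≤ Fintype.card V := by
  have hex : ∀ E ∈ cl G D, ∃ x, x ∈ E := by
    intro E hE
    obtain ⟨σ, h1, _⟩ := (mem_cl _ _ _).mp hE
    obtain ⟨x, hx⟩ := hne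
    exact ⟨σ x, (h1.mem x).mpr hx⟩
  obtain ⟨x0, _⟩ := hne
  have : Nonempty V := ⟨x0⟩
  choose! f hf using hex
  refine h.trans ?_
  rw [← card_univ]
  apply card_le_card_of_injOn f (fun _ _ => mem_coe.mpr (mem_univ _))
  intro E1 h1 E2 h2 he
  by_contra hcon
  have h3 := (mem_cl _ _ _).mp (mem_coe.mp h1)
  have h4 := (mem_cl _ _ _).mp (mem_coe.mp h2)
  have hc2 : Cn G E2 := by
    obtain ⟨σ, h6, _⟩ := h4
    exact h6.cn hD
  have h6 := par_disjoint (par_trans (par_symm h3) h4) hc2 hcon
  have h7 := hf E1 (mem_coe.mp h1)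
  rw [he] at h7
  exact Finset.disjoint_left.mp h6 h7 (hf E2 (mem_coe.mp h2))

include hH hN in
/-- a set with many parallel sets has neighbours -/
theorem nb_ne {D : Finset V} (hD : Cn G D) (hne : D.Nonempty) (h : 3 ≤ (cl G D).card) :
    (nb G D).Nonempty := by
  have h3 := three_le hD hne h
  by_contra hcon
  rw [not_nonempty_iff_eq_empty] at hcon
  apply hN
  obtain ⟨E, hE⟩ : ((cl G D).erase D).Nonempty := by
    rw [← card_pos, card_erase_of_mem (cl_self G D)]
    omega
  rw [mem_erase, mem_cl] at hE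
  obtain ⟨b, hb⟩ : ∃ b, b ∉ D := by
    by_contra hall
    push Not at hall
    apply hE.1
    obtain ⟨σ, h1, _⟩ := hE.2
    exact eq_of_subset_of_card_le (fun x _ => hall x) (by rw [h1.card_eq])
  exact disc_iso hH h3 D hne ⟨b, hb⟩ (fun x hx y hy hadj => by
    have : y ∈ nb G D := (mem_nb _ _ _).mpr ⟨hy, x, hx, hadj⟩
    rw [hcon] at this
    exact absurd this (notMem_empty _))

include hH hN in
/-- no gap -/
theorem no_gap (hp : Pat G C δ) {D : Finset V} (hD : D ∈ cp G C G)
    (hc : 2 * δ + 3 ≤ (cl G D).card) : ∃ E ∈ cp G C G, (cl G E).card = (cl G D).card - 1 := by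
  by_contra hcon
  push Not at hcon
  have h3 := three_le (cp_cn hp hD) (cp_ne hp hD) (by omega)
  obtain ⟨τ, hτ⟩ := parallel_main hp (hypo_gi hH) hH.fix (hypo_dg hH h3) hc hD rfl hcon
  exact hN ⟨τ, hτ⟩

theorem sum_Icc (a m : ℕ) (h : a ≤ m) :
    2 * (∑ j ∈ Finset.Icc a m, j) = (m + 1 - a) * (m + a) := by
  induction m, h using Nat.le_induction with
  | base =>
    rw [Icc_self, sum_singleton]
    have : a + 1 - a = 1 := by omega
    rw [this]; ring
  | succ m hm ih =>
    have h1 : Finset.Icc a (m + 1) = insert (m + 1) (Finset.Icc a m) := by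
      ext x
      rw [mem_insert, mem_Icc, mem_Icc]
      omega
    rw [h1, sum_insert (by rw [mem_Icc]; omega), mul_add, ih]
    obtain ⟨t, rfl⟩ := Nat.exists_eq_add_of_le hm
    have e1 : a + t + 1 - a = t + 1 := by omega
    have e2 : a + t + 1 + 1 - a = t + 2 := by omega
    rw [e1, e2]
    ring

include hH hN in
/-- classes of all sizes -/
theorem all_sizes (hp : Pat G C δ) (m : ℕ) (hc : (cl G C).card = m) (t : ℕ)
    (ht : t + (2 * δ + 2) ≤ m) : ∃ E ∈ cp G C G, (cl G E).card = m - t := by
  induction t with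
  | zero => exact ⟨C, (mem_cp _ _ _ _).mpr ⟨_, IsIso2.refl G C⟩, by rw [hc, Nat.sub_zero]⟩
  | succ t ih =>
    obtain ⟨E, hE, hEc⟩ := ih (by omega)
    obtain ⟨E', hE', hEc'⟩ := no_gap hH hN hp hE (by omega)
    exact ⟨E', hE', by omega⟩

include hH hN in
/-- the counting form -/
theorem count_form (hp : Pat G C δ) (m : ℕ) (hc : (cl G C).card = m) (hm : 2 * δ + 2 ≤ m)
    (S : ℕ → Prop) :
    (C.filter (fun x => S (dg G x))).card * ((m - (2 * δ + 1)) * (m + 2 * δ + 2)) ≤
      2 * (univ.filter (fun x => S (dg G x))).card := by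
  have hall := all_sizes hH hN hp m hc
  set F := (cp G C G).filter (fun D => δ < (cl G D).card) with hF
  -- number of members of `F`
  have hF1 : ∑ j ∈ Finset.Icc (2 * δ + 2) m, j ≤ F.card := by
    have h1 : ∀ j ∈ Finset.Icc (2 * δ + 2) m, j ≤ (F.filter (fun D => (cl G D).card = j)).card := by
      intro j hj
      rw [mem_Icc] at hj
      obtain ⟨E, hE, hEc⟩ := hall (m - j) (by omega)
      have hEj : (cl G E).card = j := by omega
      calc j = (cl G E).card := hEj.symm
        _ ≤ _ := by
          apply card_le_card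
          intro D hD
          have hD' := (mem_cl _ _ _).mp hD
          have h2 : (cl G D).card = j := by rw [cl_eq hD', hEj]
          exact mem_filter.mpr ⟨mem_filter.mpr ⟨cp_par hE hD', by omega⟩, h2⟩
    calc ∑ j ∈ Finset.Icc (2 * δ + 2) m, j
        ≤ ∑ j ∈ Finset.Icc (2 * δ + 2) m, (F.filter (fun D => (cl G D).card = j)).card :=
          sum_le_sum h1
      _ = ((Finset.Icc (2 * δ + 2) m).biUnion
            (fun j => F.filter (fun D => (cl G D).card = j))).card := by
          rw [card_biUnion]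
          intro i _ j _ hij
          rw [Function.onFun, Finset.disjoint_left]
          intro D h2 h3
          exact hij ((mem_filter.mp h2).2.symm.trans (mem_filter.mp h3).2)
      _ ≤ F.card := by
          apply card_le_card
          intro D hD
          obtain ⟨j, _, h2⟩ := mem_biUnion.mp hD
          exact (mem_filter.mp h2).1
  -- the members of `F` are disjoint
  have hF2 : F.card * (C.filter (fun x => S (dg G x))).card ≤
      (univ.filter (fun x => S (dg G x))).card := by
    calc F.card * (C.filter (fun x => S (dg G x))).card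
        = ∑ D ∈ F, (D.filter (fun x => S (dg G x))).card := by
          rw [← smul_eq_mul, ← sum_const]
          apply sum_congr rfl
          intro D hD
          obtain ⟨σ, h1⟩ := (mem_cp _ _ _ _).mp (mem_filter.mp hD).1
          have h2 : D.filter (fun x => S (dg G x)) =
              (C.filter (fun x => S (dg G x))).map σ.toEmbedding := by
            ext x
            rw [mem_map_equiv, mem_filter, mem_filter]
            have h3 := h1.mem (σ.symm x)
            rw [Equiv.apply_symm_apply] at h3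
            constructor
            · rintro ⟨h4, h5⟩
              have h6 := h1.dg_eq (σ.symm x) (h3.mp h4)
              rw [Equiv.apply_symm_apply] at h6
              exact ⟨h3.mp h4, by rw [← h6]; exact h5⟩
            · rintro ⟨h4, h5⟩
              have h6 := h1.dg_eq (σ.symm x) h4
              rw [Equiv.apply_symm_apply] at h6
              exact ⟨h3.mpr h4, by rw [h6]; exact h5⟩
          rw [h2, card_map]
      _ = (F.biUnion (fun D => D.filter (fun x => S (dg G x)))).card := by
          rw [card_biUnion]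
          intro D1 h1 D2 h2 hne
          rw [Function.onFun, Finset.disjoint_left]
          intro x hx1 hx2
          have a1 := mem_filter.mp (mem_coe.mp h1)
          have a2 := mem_filter.mp (mem_coe.mp h2)
          exact hne (big_disjoint hp a1.1 a2.1 a1.2 x (mem_filter.mp hx1).1
            (mem_filter.mp hx2).1).symm
      _ ≤ _ := by
          apply card_le_card
          intro x hx
          obtain ⟨D, _, h2⟩ := mem_biUnion.mp hx
          exact mem_filter.mpr ⟨mem_univ _, (mem_filter.mp h2).2⟩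
  have h1 := sum_Icc (2 * δ + 2) m hm
  have e1 : m + 1 - (2 * δ + 2) = m - (2 * δ + 1) := by omega
  rw [e1] at h1
  have e2 : m + (2 * δ + 2) = m + 2 * δ + 2 := by ring
  rw [e2] at h1
  rw [← h1]
  calc (C.filter (fun x => S (dg G x))).card * (2 * ∑ j ∈ Finset.Icc (2 * δ + 2) m, j)
      ≤ (C.filter (fun x => S (dg G x))).card * (2 * F.card) :=
        Nat.mul_le_mul_left _ (Nat.mul_le_mul_left _ hF1)
    _ = 2 * (F.card * (C.filter (fun x => S (dg G x))).card) := by ring
    _ ≤ _ := Nat.mul_le_mul_left _ hF2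

end

/-- **The theorem.** -/
theorem parallel_form (G : SimpleGraph V) (C : Finset V) (δ : ℕ)
    (hC : (G.induce (C : Set V)).Connected) (hδ : ∀ x ∈ C, dg G x ≤ δ)
    (hm : 2 * δ + 3 ≤ (cl G C).card)
    (h : (∃ j, 2 * δ + 2 ≤ j ∧ j ≤ (cl G C).card ∧ ∀ D ∈ cp G C G, (cl G D).card ≠ j) ∨
      ∃ S : ℕ → Prop,
      2 * (univ.filter (fun x => S (dg G x))).card < (C.filter (fun x => S (dg G x))).card *
        (((cl G C).card - (2 * δ + 1)) * ((cl G C).card + 2 * δ + 2))) :
    Reconstructible G ∧ Reconstructible Gᶜ := by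
  obtain ⟨hne, hcn⟩ := cn_of_connected G C hC
  refine rec_of G _ (fun H π hH hN hP => ?_) h
  have hp : Pat G C δ := ⟨hne, hcn, nb_ne hH hN hcn hne (by omega), hδ⟩
  rcases hP with ⟨j, hj1, hj2, h1⟩ | ⟨S, h1⟩
  · obtain ⟨E, hE, hEc⟩ := all_sizes hH hN hp _ rfl ((cl G C).card - j) (by omega)
    exact h1 E hE (by omega)
  · exact absurd (count_form hH hN hp _ rfl (by omega) S) (not_le.mpr h1)

end Pool.Agent.TH87.RVP
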