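import Pool.Agent.TH87.RVP.Size

set_option autoImplicit false
set_option linter.unusedSectionVars false

namespace Pool.Agent.TH87.RVP

open Finset Classical

variable {V : Type} [Fintype V] {R : SimpleGraph V} {C : Finset V}

theorem cn_insert {K : SimpleGraph V} {X : Finset V} (hX : Cn K X) {x y : V} (hx : x ∈ X)
    (hadj : K.Adj x y) : Cn K (insert y X) := by
  intro Y hY hY0 hne
  by_cases hy : y ∈ Y
  · by_cases h1 : (Y ∩ X).Nonempty
    · have h2 : Y ∩ X ≠ X := by
        intro h2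
        apply hne
        apply subset_antisymm hY
        intro z hz
        rcases mem_insert.mp hz with rfl | hz
        · exact hy
        · rw [← h2] at hz
          exact (mem_inter.mp hz).1
      obtain ⟨a, ha, b, hb, hab⟩ := hX (Y ∩ X) inter_subset_right h1 h2
      rw [mem_sdiff, mem_inter, not_and] at hb
      exact ⟨a, (mem_inter.mp ha).1, b, mem_sdiff.mpr ⟨mem_insert_of_mem hb.1,
        fun h => hb.2 h hb.1⟩, hab⟩
    · refine ⟨y, hy, x, mem_sdiff.mpr ⟨mem_insert_of_mem hx, fun h => h1 ⟨x, ?_⟩⟩, hadj.symm⟩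
      exact mem_inter.mpr ⟨h, hx⟩
  · have hYX : Y ⊆ X := fun z hz => by
      rcases mem_insert.mp (hY hz) with rfl | h
      · exact absurd hz hy
      · exact h
    by_cases h1 : Y = X
    · rw [h1] at hy ⊢
      exact ⟨x, hx, y, mem_sdiff.mpr ⟨mem_insert_self _ _, hy⟩, hadj⟩
    · obtain ⟨a, ha, b, hb, hab⟩ := hX Y hYX hY0 h1
      rw [mem_sdiff] at hb
      exact ⟨a, ha, b, mem_sdiff.mpr ⟨mem_insert_of_mem hb.1, hb.2⟩, hab⟩

/-- a connected set has a vertex whose removal keeps it connected -/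
theorem exists_noncut {K : SimpleGraph V} {X : Finset V} (hX : Cn K X) (hne : X.Nonempty) :
    ∃ c ∈ X, Cn K (X.erase c) := by
  obtain ⟨Y, hY, hmax⟩ := exists_max_image (univ.filter (fun Y => Cn K Y ∧ Y ⊂ X)) card
    ⟨∅, mem_filter.mpr ⟨mem_univ _, fun Z hZ hZ0 _ => by
      obtain ⟨z, hz⟩ := hZ0
      exact absurd (hZ hz) (notMem_empty _), by
      rw [ssubset_iff_subset_ne]
      exact ⟨empty_subset _, fun h => by rw [← h] at hne; exact not_nonempty_empty hne⟩⟩⟩
  obtain ⟨_, hYc, hYX⟩ := mem_filter.mp hY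
  have key : ∃ y ∈ X \ Y, Cn K (insert y Y) := by
    by_cases hY0 : Y.Nonempty
    · obtain ⟨x, hx, y, hy, hadj⟩ := hX Y hYX.1 hY0 hYX.ne
      exact ⟨y, hy, cn_insert hYc hx hadj⟩
    · rw [not_nonempty_iff_eq_empty] at hY0
      subst hY0
      obtain ⟨y, hy⟩ := hne
      refine ⟨y, by simpa using hy, fun Z hZ hZ0 hZne => ?_⟩
      exfalso
      apply hZne
      apply subset_antisymm hZ
      intro z hz
      obtain ⟨w, hw⟩ := hZ0
      have h1 := hZ hw
      simp only [insert_empty, mem_singleton] at h1 hz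
      rw [hz, ← h1]
      exact hw
  obtain ⟨y, hy, hc⟩ := key
  rw [mem_sdiff] at hy
  have h1 : insert y Y = X := by
    by_contra hcon
    have h2 : insert y Y ⊂ X := by
      rw [ssubset_iff_subset_ne]
      exact ⟨insert_subset hy.1 hYX.1, hcon⟩
    have h3 := hmax _ (mem_filter.mpr ⟨mem_univ _, hc, h2⟩)
    rw [card_insert_of_notMem hy.2] at h3
    omega
  refine ⟨y, hy.1, ?_⟩
  rw [← h1, erase_insert hy.2]
  exact hYc

theorem cn_del {K : SimpleGraph V} {X : Finset V} (hX : Cn K X) {c : V} (hc : c ∉ X) :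
    Cn (del K c) X := by
  intro Y hY hY0 hne
  obtain ⟨a, ha, b, hb, hab⟩ := hX Y hY hY0 hne
  refine ⟨a, ha, b, hb, hab, fun e => hc (e ▸ hY ha), fun e => hc (e ▸ (mem_sdiff.mp hb).1)⟩

/-- the rest of a copy -/
theorem iso_erase {K : SimpleGraph V} {D : Finset V} {σ : Equiv.Perm V} (h : IsIso R K C D σ)
    (c : V) : IsIso (del R c) (del K (σ c)) (C.erase c) (D.erase (σ c)) σ := by
  refine ⟨fun x => ?_, fun x hx z => ?_⟩
  · rw [mem_erase, mem_erase, h.mem, σ.injective.ne_iff]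
  · rw [mem_erase] at hx
    rw [del_adj, del_adj, h.adj x hx.2, σ.injective.ne_iff, σ.injective.ne_iff]

/-- the neighbourhood of the rest -/
theorem nb_erase {c : V} {z : V} (hz : z ∈ nb (del R c) (C.erase c)) : z ∈ nb R C := by
  rw [mem_nb] at hz ⊢
  obtain ⟨h1, x, hx, hadj⟩ := hz
  rw [mem_erase] at hx
  rw [del_adj] at hadj
  refine ⟨fun h => h1 (mem_erase.mpr ⟨hadj.2.2, h⟩), x, hx.2, hadj.1⟩

/-- the gluing of the isomorphism -/
theorem final_iso {G L : SimpleGraph V} {v0 c : V} (hΓ : del L v0 = del G v0)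
    {D0 D1 : Finset V} {σ0 σ1 ρ : Equiv.Perm V} (h0 : IsIso R G C D0 σ0) (hc : c ∈ C)
    (hc0 : σ0 c = v0) (h1 : IsIso R L C D1 σ1) (hv1 : v0 ∈ D1)
    (h01 : ∀ a ∈ nb R C, σ1 a = σ0 a)
    (hρ : IsIso (del R c) (del G v0) (C.erase c) (D1.erase v0) ρ)
    (hρ0 : ∀ a ∈ nb R C, ρ a = σ0 a) (hcn : Cn R (C.erase c)) : ∃ τ, GI G L τ := by
  have hv0 : v0 ∈ D0 := by rw [← hc0, h0.mem]; exact hc
  have hA : ∀ x y, x ≠ v0 → y ≠ v0 → (L.Adj x y ↔ G.Adj x y) := by
    intro x y hx hy
    have h2 : (del L v0).Adj x y ↔ (del G v0).Adj x y := by rw [hΓ]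
    rw [del_adj, del_adj] at h2
    exact ⟨fun h => (h2.mp ⟨h, hx, hy⟩).1, fun h => (h2.mpr ⟨h, hx, hy⟩).1⟩
  have he := iso_erase h0 c
  rw [hc0] at he
  -- equal or almost disjoint
  have hF3 : D0 = D1 ∨ ∀ x, x ∈ D0 → x ∈ D1 → x = v0 := by
    by_contra hcon
    push Not at hcon
    obtain ⟨hne, x, hx0, hx1, hxv⟩ := hcon
    have hcf : Cn (del G v0) (D0.erase v0) := he.cn (cn_del hcn (notMem_erase _ _))
    have hsub : D0.erase v0 ⊆ D1.erase v0 := by
      by_contra hs
      obtain ⟨y, hy, hyn⟩ := cross hcf ⟨x, mem_inter.mpr ⟨mem_erase.mpr ⟨hxv, hx1⟩,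
        mem_erase.mpr ⟨hxv, hx0⟩⟩⟩ hs
      have h2 : ρ.symm y ∈ nb (del R c) (C.erase c) := by
        rw [← hρ.nb_mem, Equiv.apply_symm_apply]; exact hyn
      have h3 := nb_erase h2
      have h4 := hρ0 _ h3
      rw [Equiv.apply_symm_apply] at h4
      have h5 : y ∈ nb G D0 := by rw [h4, h0.nb_mem]; exact h3
      rw [mem_nb] at h5
      exact h5.1 (mem_erase.mp hy).2
    have heq : D0.erase v0 = D1.erase v0 :=
      eq_of_subset_of_card_le hsub (by rw [hρ.card_eq, he.card_eq])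
    apply hne
    rw [← insert_erase hv0, ← insert_erase hv1, heq]
  -- the two neighbourhoods
  have hn0 : ∀ z, z ∈ nb G D0 → ∃ a ∈ nb R C, z = σ0 a ∧ z = σ1 a := by
    intro z hz
    have h2 : σ0.symm z ∈ nb R C := by rw [← h0.nb_mem, Equiv.apply_symm_apply]; exact hz
    refine ⟨_, h2, (Equiv.apply_symm_apply _ _).symm, ?_⟩
    rw [h01 _ h2, Equiv.apply_symm_apply]
  have hn1 : ∀ z, z ∈ nb L D1 → ∃ a ∈ nb R C, z = σ0 a ∧ z = σ1 a := by
    intro z hz
    have h2 : σ1.symm z ∈ nb R C := by rw [← h1.nb_mem, Equiv.apply_symm_apply]; exact hz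
    refine ⟨_, h2, ?_, (Equiv.apply_symm_apply _ _).symm⟩
    rw [← h01 _ h2, Equiv.apply_symm_apply]
  have hnn : ∀ a ∈ nb R C, σ0 a ∉ D0 ∧ σ0 a ∉ D1 := by
    intro a ha
    have h2 := (h0.nb_mem a).mpr ha
    have h3 := (h1.nb_mem a).mpr ha
    rw [mem_nb] at h2 h3
    rw [h01 a ha] at h3
    exact ⟨h2.1, h3.1⟩
  -- the map
  let φ : V → V := fun x => if x ∈ D0 then σ1 (σ0.symm x) else
    if x ∈ D1 then σ0 (ρ.symm x) else x
  have p1 : ∀ x, x ∈ D0 → φ x = σ1 (σ0.symm x) := fun x hx => if_pos hx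
  have p2 : ∀ x, x ∉ D0 → x ∈ D1 → φ x = σ0 (ρ.symm x) := fun x hx hx' => by
    show (if x ∈ D0 then _ else _) = _
    rw [if_neg hx, if_pos hx']
  have p3 : ∀ x, x ∉ D0 → x ∉ D1 → φ x = x := fun x hx hx' => by
    show (if x ∈ D0 then _ else _) = _
    rw [if_neg hx, if_neg hx']
  have s0 : ∀ x, x ∈ D0 → σ0.symm x ∈ C := fun x hx => by
    rw [← h0.mem, Equiv.apply_symm_apply]; exact hx
  have q1 : ∀ x, x ∈ D0 → φ x ∈ D1 := fun x hx => by
    rw [p1 x hx, h1.mem]; exact s0 x hx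
  have sρ : ∀ x, x ∉ D0 → x ∈ D1 → ρ.symm x ∈ C.erase c := fun x hx hx' => by
    rw [← hρ.mem, Equiv.apply_symm_apply]
    exact mem_erase.mpr ⟨fun h => hx (h ▸ hv0), hx'⟩
  have q2 : ∀ x, x ∉ D0 → x ∈ D1 → φ x ∈ D0 ∧ φ x ≠ v0 ∧ φ x ∉ D1 := fun x hx hx' => by
    have h2 := mem_erase.mp (sρ x hx hx')
    have h3 : φ x ∈ D0 := by rw [p2 x hx hx', h0.mem]; exact h2.2
    have h4 : φ x ≠ v0 := by rw [p2 x hx hx', ← hc0]; exact σ0.injective.ne h2.1
    refine ⟨h3, h4, fun h5 => ?_⟩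
    rcases hF3 with h6 | h6
    · exact hx (h6 ▸ hx')
    · exact h4 (h6 _ h3 h5)
  have hinj : Function.Injective φ := by
    intro x y hxy
    by_cases hx : x ∈ D0
    · by_cases hy : y ∈ D0
      · rw [p1 x hx, p1 y hy] at hxy
        exact σ0.symm.injective (σ1.injective hxy)
      · by_cases hy' : y ∈ D1
        · exact absurd (hxy ▸ q1 x hx) (q2 y hy hy').2.2
        · have := q1 x hx
          rw [hxy, p3 y hy hy'] at this
          exact absurd this hy'
    · by_cases hx' : x ∈ D1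
      · by_cases hy : y ∈ D0
        · exact absurd (hxy ▸ q1 y hy) (q2 x hx hx').2.2
        · by_cases hy' : y ∈ D1
          · rw [p2 x hx hx', p2 y hy hy'] at hxy
            exact ρ.symm.injective (σ0.injective hxy)
          · have := (q2 x hx hx').1
            rw [hxy, p3 y hy hy'] at this
            exact absurd this hy
      · by_cases hy : y ∈ D0
        · have := q1 y hy
          rw [← hxy, p3 x hx hx'] at this
          exact absurd this hx'
        · by_cases hy' : y ∈ D1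
          · have := (q2 y hy hy').1
            rw [← hxy, p3 x hx hx'] at this
            exact absurd this hx
          · rw [p3 x hx hx', p3 y hy hy'] at hxy
            exact hxy
  -- adjacency of the vertices of `D0`
  have a0 : ∀ x, x ∈ D0 → ∀ z, L.Adj (φ x) (φ z) ↔ G.Adj x z := by
    intro x hx z
    obtain ⟨u, rfl⟩ := σ0.surjective x
    have hu : u ∈ C := (h0.mem u).mp hx
    have e1 : φ (σ0 u) = σ1 u := by rw [p1 _ hx, Equiv.symm_apply_apply]
    rw [e1]
    by_cases hz : z ∈ D0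
    · obtain ⟨w, rfl⟩ := σ0.surjective z
      rw [p1 _ hz, Equiv.symm_apply_apply, h1.adj u hu, h0.adj u hu]
    · by_cases hz' : z ∈ D1
      · constructor
        · intro h
          exfalso
          have h2 : φ z ∈ nb L D1 := (mem_nb _ _ _).mpr ⟨(q2 z hz hz').2.2, _,
            (h1.mem u).mpr hu, h⟩
          obtain ⟨a, ha, h3, _⟩ := hn1 _ h2
          have h4 := (q2 z hz hz').1
          rw [h3] at h4
          exact (hnn a ha).1 h4
        · intro h
          exfalso
          have h2 : z ∈ nb G D0 := (mem_nb _ _ _).mpr ⟨hz, _, hx, h⟩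
          obtain ⟨a, ha, h3, _⟩ := hn0 _ h2
          rw [h3] at hz'
          exact (hnn a ha).2 hz'
      · rw [p3 z hz hz']
        constructor
        · intro h
          have h2 : z ∈ nb L D1 := (mem_nb _ _ _).mpr ⟨hz', _, (h1.mem u).mpr hu, h⟩
          obtain ⟨a, ha, h3, h4⟩ := hn1 _ h2
          rw [h4, h1.adj u hu] at h
          rw [h3, h0.adj u hu]
          exact h
        · intro h
          have h2 : z ∈ nb G D0 := (mem_nb _ _ _).mpr ⟨hz, _, hx, h⟩
          obtain ⟨a, ha, h3, h4⟩ := hn0 _ h2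
          rw [h3, h0.adj u hu] at h
          rw [h4, h1.adj u hu]
          exact h
  -- adjacency of the vertices of `D1`
  have a1 : ∀ x, x ∉ D0 → x ∈ D1 → ∀ z, z ∉ D0 → (L.Adj (φ x) (φ z) ↔ G.Adj x z) := by
    intro x hx hx' z hz
    have hxv : x ≠ v0 := fun h => hx (h ▸ hv0)
    have hzv : z ≠ v0 := fun h => hz (h ▸ hv0)
    have hφx := (q2 x hx hx').2.1
    have hr := sρ x hx hx'
    have e2 : ∀ z, z ≠ v0 → (G.Adj x z ↔ (del R c).Adj (ρ.symm x) (ρ.symm z)) := by
      intro z hz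
      have h2 := hρ.adj _ hr (ρ.symm z)
      rw [Equiv.apply_symm_apply, Equiv.apply_symm_apply, del_adj] at h2
      rw [← h2]
      exact ⟨fun h => ⟨h, hxv, hz⟩, fun h => h.1⟩
    have e3 : ∀ z, z ≠ v0 → (L.Adj (φ x) z ↔ (del R c).Adj (ρ.symm x) (σ0.symm z)) := by
      intro z hz
      have h2 := he.adj _ hr (σ0.symm z)
      rw [Equiv.apply_symm_apply, del_adj, ← p2 x hx hx'] at h2
      rw [← h2, hA _ _ hφx hz]
      exact ⟨fun h => ⟨h, hφx, hz⟩, fun h => h.1⟩
    by_cases hz' : z ∈ D1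
    · rw [e3 _ (q2 z hz hz').2.1, e2 z hzv, p2 z hz hz', Equiv.symm_apply_apply]
    · rw [p3 z hz hz', e3 z hzv, e2 z hzv]
      constructor
      · intro h
        have h2 : σ0.symm z ∈ nb (del R c) (C.erase c) := by
          rw [mem_nb]
          refine ⟨fun h3 => hz ?_, _, hr, h⟩
          have := (h0.mem (σ0.symm z)).mpr (mem_erase.mp h3).2
          rwa [Equiv.apply_symm_apply] at this
        have h3 := hρ0 _ (nb_erase h2)
        rw [Equiv.apply_symm_apply] at h3
        have h4 : ρ.symm z = σ0.symm z := by rw [Equiv.symm_apply_eq, h3]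
        rw [h4]; exact h
      · intro h
        have h2 : ρ.symm z ∈ nb (del R c) (C.erase c) := by
          rw [mem_nb]
          refine ⟨fun h3 => hz' ?_, _, hr, h⟩
          have := (hρ.mem (ρ.symm z)).mpr h3
          rw [Equiv.apply_symm_apply] at this
          exact (mem_erase.mp this).2
        have h3 := hρ0 _ (nb_erase h2)
        rw [Equiv.apply_symm_apply] at h3
        have h4 : σ0.symm z = ρ.symm z := by rw [Equiv.symm_apply_eq]; exact h3
        rw [h4]; exact h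
  refine ⟨Equiv.ofBijective φ (Finite.injective_iff_bijective.mp hinj), fun x y => ?_⟩
  rw [Equiv.ofBijective_apply, Equiv.ofBijective_apply]
  by_cases hx : x ∈ D0
  · exact a0 x hx y
  · by_cases hy : y ∈ D0
    · rw [SimpleGraph.adj_comm, SimpleGraph.adj_comm G]
      exact a0 y hy x
    · by_cases hx' : x ∈ D1
      · exact a1 x hx hx' y hy
      · by_cases hy' : y ∈ D1
        · rw [SimpleGraph.adj_comm, SimpleGraph.adj_comm G]
          exact a1 y hy hy' x hx
        · rw [p3 x hx hx', p3 y hy hy']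
          exact hA x y (fun h => hx (h ▸ hv0)) (fun h => hy (h ▸ hv0))

end Pool.Agent.TH87.RVP
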