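import Pool.Agent.TH87.RVP.Glue

set_option autoImplicit false
set_option linter.unusedSectionVars false

namespace Pool.Agent.TH87.RVP

open Finset Classical

variable {V : Type} [Fintype V] {R : SimpleGraph V} {C : Finset V} {δ : ℕ}

/-- the sets which look like the rest of the copy `ν(C)` without `ν(c)` -/
noncomputable def frs (R : SimpleGraph V) (C : Finset V) (c : V) (K : SimpleGraph V)
    (ν : Equiv.Perm V) : Finset (Finset V) :=
  univ.filter (fun E => ∃ ρ : Equiv.Perm V, IsIso (del R c) K (C.erase c) E ρ ∧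
    ∀ a ∈ nb R C, ρ a = ν a)

theorem mem_frs (c : V) (K : SimpleGraph V) (ν : Equiv.Perm V) (E : Finset V) :
    E ∈ frs R C c K ν ↔ ∃ ρ : Equiv.Perm V, IsIso (del R c) K (C.erase c) E ρ ∧
    ∀ a ∈ nb R C, ρ a = ν a := by
  simp [frs]

theorem frs_congr (c : V) (K : SimpleGraph V) {ν ν' : Equiv.Perm V}
    (h : ∀ a ∈ nb R C, ν' a = ν a) : frs R C c K ν' = frs R C c K ν := by
  ext E
  rw [mem_frs, mem_frs]
  constructor
  · rintro ⟨ρ, h1, h2⟩
    exact ⟨ρ, h1, fun a ha => by rw [h2 a ha, h a ha]⟩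
  · rintro ⟨ρ, h1, h2⟩
    exact ⟨ρ, h1, fun a ha => by rw [h2 a ha, h a ha]⟩

theorem frs_gi {K L : SimpleGraph V} {τ : Equiv.Perm V} (h : GI K L τ) (c : V)
    (ν : Equiv.Perm V) : (frs R C c K ν).card ≤ (frs R C c L (ν.trans τ)).card := by
  rw [← card_map ⟨fun E : Finset V => E.map τ.toEmbedding, Finset.map_injective _⟩]
  apply card_le_card
  intro E hE
  obtain ⟨F, hF, rfl⟩ := mem_map.mp hE
  obtain ⟨ρ, h1, h2⟩ := (mem_frs _ _ _ _).mp hF
  refine (mem_frs _ _ _ _).mpr ⟨ρ.trans τ, h1.trans (gi_iso h F), fun a ha => ?_⟩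
  rw [Equiv.trans_apply, Equiv.trans_apply, h2 a ha]

section

variable {K : SimpleGraph V} {D E : Finset V} {ν ρ : Equiv.Perm V} {c : V}

/-- the neighbourhood of a rest is in the neighbourhood of the copy -/
theorem frs_nb (hν : IsIso R K C D ν) {L : SimpleGraph V}
    (h1 : IsIso (del R c) L (C.erase c) E ρ)
    (h2 : ∀ a ∈ nb R C, ρ a = ν a) (y : V) (hy : y ∈ nb L E) : y ∈ nb K D := by
  have h3 : ρ.symm y ∈ nb (del R c) (C.erase c) := by
    rw [← h1.nb_mem, Equiv.apply_symm_apply]; exact hy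
  have h4 := nb_erase h3
  have h5 := h2 _ h4
  rw [Equiv.apply_symm_apply] at h5
  rw [h5, hν.nb_mem]
  exact h4

theorem frs_out (hν : IsIso R K C D ν) {L : SimpleGraph V}
    (h1 : IsIso (del R c) L (C.erase c) E ρ)
    (h2 : ∀ a ∈ nb R C, ρ a = ν a) (y : V) (hy : y ∈ nb K D) : y ∉ E := by
  intro hyE
  have h3 : ν.symm y ∈ nb R C := by
    rw [← hν.nb_mem, Equiv.apply_symm_apply]; exact hy
  have h4 := h2 _ h3
  rw [Equiv.apply_symm_apply] at h4
  rw [← h4, h1.mem] at hyE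
  rw [mem_nb] at h3
  exact h3.1 (mem_erase.mp hyE).2

theorem frs_disj (hcC : c ∈ C) (hcn : Cn R C) (hν : IsIso R K C D ν)
    (h1 : IsIso (del R c) K (C.erase c) E ρ)
    (h2 : ∀ a ∈ nb R C, ρ a = ν a) (x : V) (hx : x ∈ D) : x ∉ E := by
  intro hxE
  have h3 : ¬ D ⊆ E := by
    intro hs
    have := card_le_card hs
    rw [h1.card_eq, hν.card_eq, card_erase_of_mem hcC] at this
    have := card_pos.mpr ⟨c, hcC⟩
    omega
  obtain ⟨y, hy, hyn⟩ := cross (hν.cn hcn) ⟨x, mem_inter.mpr ⟨hxE, hx⟩⟩ h3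
  have h4 := frs_nb hν h1 h2 y hyn
  rw [mem_nb] at h4
  exact h4.1 hy

theorem frs_up (hcC : c ∈ C) (hcn : Cn R C) (hν : IsIso R K C D ν) {v0 : V} (hv : v0 ∈ D)
    (hE : E ∈ frs R C c K ν) : E ∈ frs R C c (del K v0) ν ∧ v0 ∉ E := by
  obtain ⟨ρ, h1, h2⟩ := (mem_frs _ _ _ _).mp hE
  have h3 := frs_disj hcC hcn hν h1 h2 v0 hv
  have h4 : v0 ∉ nb K E := by
    intro h
    have := frs_nb hν h1 h2 v0 h
    rw [mem_nb] at this
    exact this.1 hv
  exact ⟨(mem_frs _ _ _ _).mpr ⟨_, h1.trans (del_iso K v0 E h3 h4), fun a ha => h2 a ha⟩, h3⟩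

theorem frs_down (hcC : c ∈ C) (hcn' : Cn R (C.erase c)) (hν : IsIso R K C D ν) {v0 : V}
    (hv : v0 ∈ D) (hE : E ∈ frs R C c (del K v0) ν) (hvE : v0 ∉ E) :
    E ∈ frs R C c K ν ∨ E = D.erase v0 := by
  obtain ⟨ρ, h1, h2⟩ := (mem_frs _ _ _ _).mp hE
  by_cases h4 : v0 ∉ nb K E
  · left
    exact (mem_frs _ _ _ _).mpr ⟨_, h1.trans (del_iso K v0 E hvE h4).symm, fun a ha => h2 a ha⟩
  · right
    push Not at h4
    rw [mem_nb] at h4
    obtain ⟨_, z, hz, hadj⟩ := h4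
    have h5 : z ∉ nb K D := fun h => frs_out hν h1 h2 z h hz
    have h6 : z ∈ D := by
      by_contra hcon
      exact h5 ((mem_nb _ _ _).mpr ⟨hcon, v0, hv, hadj.symm⟩)
    have h7 : E ⊆ D := by
      by_contra hs
      obtain ⟨y, hy, hyn⟩ := cross (h1.cn (cn_del hcn' (notMem_erase _ _)))
        ⟨z, mem_inter.mpr ⟨h6, hz⟩⟩ hs
      apply frs_out hν h1 h2 y _ hy
      rw [mem_nb] at hyn ⊢
      obtain ⟨h8, w, hw, hadj'⟩ := hyn
      exact ⟨h8, w, hw, hadj'.1⟩
    apply eq_of_subset_of_card_le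
    · intro y hy
      exact mem_erase.mpr ⟨fun h => hvE (h ▸ hy), h7 hy⟩
    · rw [card_erase_of_mem hv, hν.card_eq, h1.card_eq, card_erase_of_mem hcC]

/-- the number of rests after the deletion -/
theorem frs_card (hcC : c ∈ C) (hcn : Cn R C) (hcn' : Cn R (C.erase c)) (h2 : 2 ≤ C.card)
    (hν : IsIso R K C D ν) {v0 : V} (hv : v0 ∈ D) :
    ((frs R C c (del K v0) ν).filter (fun E => v0 ∉ E)).card = (frs R C c K ν).card +
      (if D.erase v0 ∈ frs R C c (del K v0) ν then 1 else 0) := by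
  have hnot : D.erase v0 ∉ frs R C c K ν := by
    intro h
    obtain ⟨ρ, h1, h3⟩ := (mem_frs _ _ _ _).mp h
    have h4 : 0 < (D.erase v0).card := by
      rw [card_erase_of_mem hv, hν.card_eq]; omega
    obtain ⟨y, hy⟩ := card_pos.mp h4
    exact frs_disj hcC hcn hν h1 h3 y (mem_erase.mp hy).2 hy
  split_ifs with h
  · have : (frs R C c (del K v0) ν).filter (fun E => v0 ∉ E) =
        insert (D.erase v0) (frs R C c K ν) := by
      ext E
      rw [mem_filter, mem_insert]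
      constructor
      · rintro ⟨h3, h4⟩
        exact (frs_down hcC hcn' hν hv h3 h4).symm
      · rintro (rfl | h3)
        · exact ⟨h, notMem_erase _ _⟩
        · exact frs_up hcC hcn hν hv h3
    rw [this, card_insert_of_notMem hnot]
  · have : (frs R C c (del K v0) ν).filter (fun E => v0 ∉ E) = frs R C c K ν := by
      ext E
      rw [mem_filter]
      constructor
      · rintro ⟨h3, h4⟩
        rcases frs_down hcC hcn' hν hv h3 h4 with h5 | h5
        · exact h5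
        · exact absurd (h5 ▸ h3) h
      · exact fun h3 => frs_up hcC hcn hν hv h3
    rw [this]
    rfl

theorem frs_self (hν : IsIso R K C D ν) :
    D.erase (ν c) ∈ frs R C c (del K (ν c)) ν :=
  (mem_frs _ _ _ _).mpr ⟨ν, iso_erase hν c, fun _ _ => rfl⟩

end

/-- the pull back of a graph -/
def pull (H : SimpleGraph V) (τ : Equiv.Perm V) : SimpleGraph V where
  Adj x y := H.Adj (τ x) (τ y)
  symm := ⟨fun _ _ h => SimpleGraph.Adj.symm h⟩
  loopless := ⟨fun x h => H.loopless.irrefl (τ x) h⟩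

theorem pull_gi (H : SimpleGraph V) (τ : Equiv.Perm V) : GI (pull H τ) H τ := fun _ _ => Iff.rfl

theorem pull_del {G H : SimpleGraph V} {τ : Equiv.Perm V} {v : V}
    (h : GI (del G v) (del H v) τ) (hf : τ v = v) : del (pull H τ) v = del G v := by
  ext x y
  rw [← h x y, del_adj, del_adj]
  have e : ∀ z, τ z ≠ v ↔ z ≠ v := fun z => by
    conv_lhs => rw [← hf]
    rw [τ.injective.ne_iff]
  rw [e, e]
  exact Iff.rfl

section main

variable (hp : Pat R C δ) {G H : SimpleGraph V} {π : V → Equiv.Perm V}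
  (hGI : ∀ v, GI (del G v) (del H v) (π v)) (hfix : ∀ v, π v v = v)
  (hdeg : ∀ v, dg G v = dg H v) {m : ℕ}

include hp hGI hfix hdeg in
theorem step (hm : 2 * δ + 3 ≤ m) (hgap : sn R C G (m - 1) = 0) {D0 : Finset V}
    {σ0 : Equiv.Perm V} (h0 : IsIso2 R G C D0 σ0) (hc0 : (cl G D0).card = m) (v0 : V)
    (hv0 : v0 ∈ D0) :
    ∃ D1 σ1, IsIso2 R (pull H (π v0)) C D1 σ1 ∧ v0 ∈ D1 ∧
      (cl (pull H (π v0)) D1).card = m ∧ ∀ a ∈ nb R C, σ1 a = σ0 a := by
  have hD0 : D0 ∈ cp R C G := (mem_cp _ _ _ _).mpr ⟨σ0, h0⟩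
  have hSG : Sz R C δ G v0 m := ⟨D0, hD0, hv0, hc0, by omega⟩
  have hsz := size_main hp hGI hdeg hm hSG hgap
  obtain ⟨D', hD', hvD', hcD', _⟩ := (hsz.1 v0 m).mp hSG
  set L := pull H (π v0) with hL
  have gL : GI L H (π v0) := pull_gi H (π v0)
  have hΓ : del L v0 = del G v0 := pull_del (hGI v0) (hfix v0)
  set D1 := D'.map (π v0).symm.toEmbedding with hD1
  have hD1cp : D1 ∈ cp R C L := (gi_cp (gi_symm gL) D').mpr hD'
  have hv1 : v0 ∈ D1 := by
    rw [hD1, mem_map_equiv, Equiv.symm_symm, hfix]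
    exact hvD'
  have hc1 : (cl L D1).card = m := by
    rw [hD1, gi_cl_card (gi_symm gL), hcD']
  -- the class of size `m - 1` of the deleted graph is unique
  have hP : (cl G D0).erase D0 ∈ cs R C (del G v0) := by
    apply (cs_del hp hD0 hv0 (by omega) _ _).mpr (Or.inr rfl)
    rw [card_erase_of_mem (cl_self G D0)]
    omega
  have hQ : (cl L D1).erase D1 ∈ cs R C (del G v0) := by
    rw [← hΓ]
    apply (cs_del hp hD1cp hv1 (by omega) _ _).mpr (Or.inr rfl)
    rw [card_erase_of_mem (cl_self L D1)]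
    omega
  have hPc : ((cl G D0).erase D0).card = m - 1 := by
    rw [card_erase_of_mem (cl_self G D0), hc0]
  have hQc : ((cl L D1).erase D1).card = m - 1 := by
    rw [card_erase_of_mem (cl_self L D1), hc1]
  have hone : sn R C (del G v0) (m - 1) = 1 := by
    have h1 := W_del hp hD0 hv0 (by omega) (fun t => if t = m - 1 then 1 else 0) (fun t ht => by
      rw [if_neg (by omega)])
    rw [hc0] at h1
    have h2 : W R C (fun t => if t = m - 1 then 1 else 0) G = 0 := hgap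
    rw [h2] at h1
    simp only [if_true] at h1
    rw [if_neg (by omega)] at h1
    unfold sn
    omega
  have huniq : (cl G D0).erase D0 = (cl L D1).erase D1 := by
    by_contra hne
    unfold sn W at hone
    rw [← sum_filter, sum_const, smul_eq_mul, mul_one] at hone
    obtain ⟨X, hX⟩ := card_eq_one.mp hone
    have e1 : (cl G D0).erase D0 ∈
        (cs R C (del G v0)).filter (fun P => P.card = m - 1) := mem_filter.mpr ⟨hP, hPc⟩
    have e2 : (cl L D1).erase D1 ∈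
        (cs R C (del G v0)).filter (fun P => P.card = m - 1) := mem_filter.mpr ⟨hQ, hQc⟩
    rw [hX, mem_singleton] at e1 e2
    exact hne (e1.trans e2.symm)
  obtain ⟨E0, hE0⟩ : ((cl G D0).erase D0).Nonempty := card_pos.mp (by omega)
  have hE1 := hE0
  rw [huniq] at hE1
  rw [mem_erase, mem_cl] at hE0 hE1
  have hcn0 := cp_cn hp hD0
  have hE0cp := cp_par hD0 hE0.2
  have hE1cp := cp_par hD1cp hE1.2
  have hvE : v0 ∉ E0 := Finset.disjoint_left.mp
    (par_disjoint hE0.2 (cp_cn hp hE0cp) (Ne.symm hE0.1)) hv0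
  have hn0 : v0 ∉ nb G E0 := by
    rw [par_nb hE0.2, mem_nb]
    exact fun h => h.1 hv0
  have hn1 : v0 ∉ nb L E0 := by
    rw [par_nb hE1.2, mem_nb]
    exact fun h => h.1 hv1
  have k1 := del_iso2 G v0 E0 hvE hn0
  have k2 := del_iso2 L v0 E0 hvE hn1
  rw [hΓ] at k2
  have hnn : nb L D1 = nb G D0 := by
    rw [← par_nb hE1.2, ← par_nb hE0.2, ← nb_del G v0 E0 hvE hn0, ← nb_del L v0 E0 hvE hn1, hΓ]
  obtain ⟨α, hα, hα2⟩ := par_iso2 hE0.2
  obtain ⟨β, hβ, hβ2⟩ := par_iso2 hE1.2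
  refine ⟨D1, _, (((h0.trans hα).trans k1).trans k2.symm).trans hβ.symm, hv1, hc1, fun a ha => ?_⟩
  have h3 : σ0 a ∈ nb G D0 := (h0.nb_mem a).mpr ha
  show β.symm (α (σ0 a)) = σ0 a
  rw [hα2 _ h3, Equiv.symm_apply_eq, hβ2 _ (by rw [hnn]; exact h3)]

/-- the markings of the copies with `m` parallel copies -/
noncomputable def mk (R : SimpleGraph V) (C : Finset V) (m : ℕ) (K : SimpleGraph V) :
    Finset (Equiv.Perm V) :=
  univ.filter (fun ν => ∃ D, IsIso2 R K C D ν ∧ (cl K D).card = m)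

theorem mem_mk (K : SimpleGraph V) (ν : Equiv.Perm V) :
    ν ∈ mk R C m K ↔ ∃ D, IsIso2 R K C D ν ∧ (cl K D).card = m := by
  simp [mk]

include hp hGI hfix hdeg in
theorem step2 (hm : 2 * δ + 3 ≤ m) (hgap : sn R C G (m - 1) = 0) {c : V} (hcC : c ∈ C)
    (hcn' : Cn R (C.erase c)) (h2 : 2 ≤ C.card) {D0 : Finset V}
    {σ0 : Equiv.Perm V} (h0 : IsIso2 R G C D0 σ0) (hc0 : (cl G D0).card = m) :
    (∃ τ, GI G H τ) ∨ ∃ ν ∈ mk R C m H, (frs R C c G σ0).card < (frs R C c H ν).card := by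
  have hv0 : σ0 c ∈ D0 := (h0.mem c).mpr hcC
  obtain ⟨D1, σ1, h1, hv1, hc1, h01⟩ := step hp hGI hfix hdeg hm hgap h0 hc0 (σ0 c) hv0
  set v0 := σ0 c with hv0e
  set L := pull H (π v0) with hL
  have gL : GI L H (π v0) := pull_gi H (π v0)
  have hΓ : del L v0 = del G v0 := pull_del (hGI v0) (hfix v0)
  have e0 := frs_card hcC hp.cn hcn' h2 h0.toIsIso hv0
  have e1 := frs_card hcC hp.cn hcn' h2 h1.toIsIso hv1
  rw [hΓ, frs_congr c _ h01] at e1
  have hself : D0.erase v0 ∈ frs R C c (del G v0) σ0 := frs_self h0.toIsIso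
  rw [if_pos hself] at e0
  by_cases hin : D1.erase v0 ∈ frs R C c (del G v0) σ0
  · left
    obtain ⟨ρ, hρ, hρ0⟩ := (mem_frs _ _ _ _).mp hin
    obtain ⟨τ, hτ⟩ := final_iso hΓ h0.toIsIso hcC hv0e.symm h1.toIsIso hv1 h01 hρ hρ0 hcn'
    refine ⟨τ.trans (π v0), fun x y => ?_⟩
    rw [Equiv.trans_apply, Equiv.trans_apply, gL, hτ]
  · right
    rw [if_neg hin] at e1
    refine ⟨σ1.trans (π v0), (mem_mk _ _).mpr ⟨_, h1.trans (gi_iso2 gL D1), ?_⟩, ?_⟩
    · rw [gi_cl_card gL, hc1]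
    · have h3 : (frs R C c L σ1).card ≤ (frs R C c H (σ1.trans (π v0))).card := frs_gi gL c σ1
      have h4 : (frs R C c L σ1).card = (frs R C c L σ0).card := by rw [frs_congr c _ h01]
      omega

end main

/-- **Main theorem.** -/
theorem parallel_main (hp : Pat R C δ) {G H : SimpleGraph V} {π : V → Equiv.Perm V}
    (hGI : ∀ v, GI (del G v) (del H v) (π v)) (hfix : ∀ v, π v v = v)
    (hdeg : ∀ v, dg G v = dg H v) {m : ℕ} (hm : 2 * δ + 3 ≤ m) {D0 : Finset V}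
    (hD0 : D0 ∈ cp R C G) (hc0 : (cl G D0).card = m)
    (hgap : ∀ D ∈ cp R C G, (cl G D).card ≠ m - 1) : ∃ τ, GI G H τ := by
  have hsn : sn R C G (m - 1) = 0 := by
    unfold sn W
    apply sum_eq_zero
    intro P hP
    obtain ⟨D, hD, rfl⟩ := (mem_cs _ _ _ _).mp hP
    exact if_neg (hgap D hD)
  obtain ⟨σ0, h0⟩ := (mem_cp _ _ _ _).mp hD0
  obtain ⟨c, hcC, hcn'⟩ := exists_noncut hp.cn hp.ne
  by_cases h2 : 2 ≤ C.card
  · obtain ⟨u, hu⟩ := cp_ne hp hD0
    have hSG : Sz R C δ G u m := ⟨D0, hD0, hu, hc0, by omega⟩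
    have hsz := size_main hp hGI hdeg hm hSG hsn
    have hGI' : ∀ v, GI (del H v) (del G v) (π v).symm := fun v => gi_symm (hGI v)
    have hfix' : ∀ v, (π v).symm v = v := fun v => by rw [Equiv.symm_apply_eq, hfix]
    have hsnH : sn R C H (m - 1) = 0 := by rw [← hsz.2 (m - 1) (by omega)]; exact hsn
    by_contra hcon
    -- the marking with the largest number
    obtain ⟨ν, hν, hmax⟩ := exists_max_image (mk R C m G) (fun ν => (frs R C c G ν).card)
      ⟨σ0, (mem_mk _ _).mpr ⟨D0, h0, hc0⟩⟩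
    obtain ⟨D, hD, hDc⟩ := (mem_mk _ _).mp hν
    rcases step2 hp hGI hfix hdeg hm hsn hcC hcn' h2 hD hDc with h | ⟨ν', hν', hlt⟩
    · exact hcon h
    · obtain ⟨D', hD', hDc'⟩ := (mem_mk _ _).mp hν'
      rcases step2 hp hGI' hfix' (fun v => (hdeg v).symm) hm hsnH hcC hcn' h2 hD' hDc' with
        ⟨τ, h⟩ | ⟨ν'', hν'', hlt'⟩
      · exact hcon ⟨τ.symm, gi_symm h⟩
      · have := hmax ν'' hν''
        omega
  · have hv0 : σ0 c ∈ D0 := (h0.mem c).mpr hcC
    obtain ⟨D1, σ1, h1, hv1, hc1, h01⟩ := step hp hGI hfix hdeg hm hsn h0 hc0 (σ0 c) hv0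
    have hΓ : del (pull H (π (σ0 c))) (σ0 c) = del G (σ0 c) :=
      pull_del (hGI (σ0 c)) (hfix (σ0 c))
    have hC1 : C.card = 1 := by
      have := card_pos.mpr hp.ne
      omega
    have hCe : C.erase c = ∅ := by
      rw [← card_eq_zero, card_erase_of_mem hcC, hC1]
    have hDe : D1.erase (σ0 c) = ∅ := by
      rw [← card_eq_zero, card_erase_of_mem hv1, h1.card_eq, hC1]
    have hρ : IsIso (del R c) (del G (σ0 c)) (C.erase c) (D1.erase (σ0 c)) σ0 := by
      rw [hCe, hDe]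
      exact ⟨fun x => ⟨fun h => absurd h (notMem_empty _), fun h => absurd h (notMem_empty _)⟩,
        fun x hx => absurd hx (notMem_empty _)⟩
    obtain ⟨τ, hτ⟩ := final_iso hΓ h0.toIsIso hcC rfl h1.toIsIso hv1 h01 hρ (fun _ _ => rfl) hcn'
    refine ⟨τ.trans (π (σ0 c)), fun x y => ?_⟩
    rw [Equiv.trans_apply, Equiv.trans_apply, pull_gi H (π (σ0 c)), hτ]

end Pool.Agent.TH87.RVP
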