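import Pool.Agent.TH87.RVP.Del

set_option autoImplicit false
set_option linter.unusedSectionVars false

namespace Pool.Agent.TH87.RVP

open Finset Classical

variable {V : Type} [Fintype V] {R : SimpleGraph V} {C : Finset V} {δ : ℕ} (hp : Pat R C δ)

/-- the vertex `v` is in a copy with `j` parallel copies, `j` large -/
def Sz (R : SimpleGraph V) (C : Finset V) (δ : ℕ) (K : SimpleGraph V) (v : V) (j : ℕ) : Prop :=
  ∃ D ∈ cp R C K, v ∈ D ∧ (cl K D).card = j ∧ δ + 2 ≤ j

/-- the number of classes of size `i` -/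
noncomputable def sn (R : SimpleGraph V) (C : Finset V) (K : SimpleGraph V) (i : ℕ) : ℕ :=
  W R C (fun j => if j = i then 1 else 0) K

include hp in
theorem one_le_delta : 1 ≤ δ := by
  obtain ⟨y, hy⟩ := hp.nb
  rw [mem_nb] at hy
  obtain ⟨_, x, hx, hadj⟩ := hy
  refine le_trans ?_ (hp.dg x hx)
  rw [dg, Nat.one_le_iff_ne_zero, Ne, card_eq_zero]
  intro h
  have : y ∈ univ.filter (fun y => R.Adj x y) := mem_filter.mpr ⟨mem_univ _, hadj⟩
  rw [h] at this
  exact absurd this (notMem_empty _)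

include hp in
theorem exists_sz {K : SimpleGraph V} (i : ℕ) (hi : δ + 2 ≤ i) (h : sn R C K i ≠ 0) :
    ∃ v, Sz R C δ K v i := by
  unfold sn W at h
  obtain ⟨P, hP, hne⟩ := exists_ne_zero_of_sum_ne_zero h
  have hc : P.card = i := by
    by_contra hcon
    simp [hcon] at hne
  obtain ⟨D, hD, rfl⟩ := (mem_cs _ _ _ _).mp hP
  obtain ⟨v, hv⟩ := cp_ne hp hD
  exact ⟨v, D, hD, hv, hc, hi⟩

theorem sn_pos {K : SimpleGraph V} {D : Finset V} (hD : D ∈ cp R C K) :
    sn R C K (cl K D).card ≠ 0 := by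
  unfold sn W
  intro h
  have := (sum_eq_zero_iff.mp h) (cl K D) ((mem_cs _ _ _ _).mpr ⟨D, hD, rfl⟩)
  simp at this

theorem sz_sn {K : SimpleGraph V} {v : V} {j : ℕ} (h : Sz R C δ K v j) : sn R C K j ≠ 0 := by
  obtain ⟨D, hD, _, hc, _⟩ := h
  rw [← hc]
  exact sn_pos hD

/-- the potential -/
noncomputable def T (R : SimpleGraph V) (C : Finset V) (δ : ℕ) (K : SimpleGraph V) : ℕ :=
  W R C (fun j => j - (δ + 1)) K

include hp in
theorem T_big {K : SimpleGraph V} {v : V} {j : ℕ} (h : Sz R C δ K v j) :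
    T R C δ (del K v) + 1 = T R C δ K := by
  obtain ⟨D, hD, hv, hc, hj⟩ := h
  have h1 := W_del hp hD hv (by omega) (fun j => j - (δ + 1)) (fun j hj => by
    show j - (δ + 1) = 0
    omega)
  simp only [hc] at h1
  unfold T
  omega

include hp in
theorem T_small {K : SimpleGraph V} {v : V} (hdv : dg K v ≤ δ) (h : ∀ j, ¬ Sz R C δ K v j) :
    T R C δ K ≤ T R C δ (del K v) :=
  T_le hp hdv (fun D hD hb hv => h _ ⟨D, hD, hv, rfl, hb⟩)

include hp in
theorem T_all {K : SimpleGraph V} {v : V} (hdv : dg K v ≤ δ) :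
    T R C δ K ≤ T R C δ (del K v) + 1 := by
  by_cases h : ∃ j, Sz R C δ K v j
  · obtain ⟨j, hj⟩ := h
    exact (T_big hp hj).ge
  · push Not at h
    exact (T_small hp hdv h).trans (Nat.le_succ _)

include hp in
/-- a large class of the deleted graph gives a large class of the graph -/
theorem exists_big {K : SimpleGraph V} {v : V} (hdv : dg K v ≤ δ) {D1 : Finset V}
    (hD1 : D1 ∈ cp R C (del K v)) (hc : 2 * δ + 2 ≤ (cl (del K v) D1).card) :
    ∃ w j, Sz R C δ K w j := by
  set P := cl (del K v) D1 with hP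
  have hPcp : ∀ E ∈ P, E ∈ cp R C (del K v) := fun E hE => cp_par hD1 ((mem_cl _ _ _).mp hE)
  have hbad : (P.filter (fun E => v ∈ nb K E)).card ≤ δ := by
    refine le_trans ?_ hdv
    have hex : ∀ E ∈ P.filter (fun E => v ∈ nb K E), ∃ x ∈ E, K.Adj v x := by
      intro E hE
      have h1 := (mem_filter.mp hE).2
      rw [mem_nb] at h1
      obtain ⟨_, x, hx, hadj⟩ := h1
      exact ⟨x, hx, hadj.symm⟩
    have : Nonempty V := ⟨v⟩
    choose! f hf1 hf2 using hex
    apply card_le_card_of_injOn f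
    · intro E hE
      exact mem_coe.mpr (mem_filter.mpr ⟨mem_univ _, hf2 E (mem_coe.mp hE)⟩)
    · intro E1 h1 E2 h2 he
      by_contra hne
      have h3 := mem_coe.mp h1
      have h4 := mem_coe.mp h2
      have h3' := (mem_cl _ _ _).mp (mem_filter.mp h3).1
      have h4' := (mem_cl _ _ _).mp (mem_filter.mp h4).1
      have h5 : Par (del K v) E1 E2 := par_trans (par_symm h3') h4'
      have h6 := par_disjoint h5 (cp_cn hp (hPcp E2 (mem_filter.mp h4).1)) hne
      have h7 := hf1 E1 h3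
      rw [he] at h7
      exact Finset.disjoint_left.mp h6 h7 (hf1 E2 h4)
  have hgood : δ + 2 ≤ (P.filter (fun E => v ∉ nb K E)).card := by
    have h1 := card_filter_add_card_filter_not (s := P) (fun E => v ∈ nb K E)
    omega
  obtain ⟨E, hE⟩ := card_pos.mp (by omega : 0 < (P.filter (fun E => v ∉ nb K E)).card)
  obtain ⟨hEP, hEv⟩ := mem_filter.mp hE
  obtain ⟨hEK, hvE⟩ := (cp_del_iff hp hEv).mp (hPcp E hEP)
  have hsub : P.filter (fun E => v ∉ nb K E) ⊆ cl K E := by
    intro F hF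
    obtain ⟨hFP, hFv⟩ := mem_filter.mp hF
    have h1 : Par (del K v) E F :=
      par_trans (par_symm ((mem_cl _ _ _).mp hEP)) ((mem_cl _ _ _).mp hFP)
    exact (mem_cl _ _ _).mpr ((par_del_iff K v E F hvE hEv (notMem_cp_del hp (hPcp F hFP))
      hFv).mp h1)
  have h2 := card_le_card hsub
  obtain ⟨w, hw⟩ := cp_ne hp hEK
  exact ⟨w, _, E, hEK, hw, rfl, by omega⟩

section pair

variable {G H : SimpleGraph V} {π : V → Equiv.Perm V}
  (hGI : ∀ v, GI (del G v) (del H v) (π v)) (hdeg : ∀ v, dg G v = dg H v)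

include hp hdeg in
theorem dg_sz {v : V} {j : ℕ} (h : Sz R C δ G v j) : dg H v ≤ δ := by
  obtain ⟨D, hD, hv, _, _⟩ := h
  rw [← hdeg]
  exact cp_dg hp hD v hv

include hp hGI hdeg in
theorem T_eq {v : V} {j : ℕ} (h : Sz R C δ G v j) (hj : 2 * δ + 3 ≤ j) :
    T R C δ G = T R C δ H := by
  have e1 : ∀ w, T R C δ (del H w) = T R C δ (del G w) := fun w => gi_W (hGI w) _
  have h1 := T_big hp h
  have h2 := T_all hp (dg_sz hp hdeg h)
  rw [e1] at h2
  -- a large class of `H`
  obtain ⟨D, hD, hv, hc, hb⟩ := h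
  have h3 : ((cl G D).erase D) ∈ cs R C (del G v) := by
    apply (cs_del hp hD hv (by omega) _ _).mpr (Or.inr rfl)
    rw [card_erase_of_mem (cl_self G D)]
    omega
  obtain ⟨D1, hD1, he⟩ := (mem_cs _ _ _ _).mp h3
  have h4 : (cl (del G v) D1).card = j - 1 := by
    rw [he, card_erase_of_mem (cl_self G D), hc]
  have h5 := (gi_cp (hGI v) D1).mpr hD1
  obtain ⟨w, i, hw⟩ := exists_big hp (dg_sz hp hdeg ⟨D, hD, hv, hc, hb⟩) h5 (by
    rw [gi_cl_card (hGI v), h4]; omega)
  have h6 := T_big hp hw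
  have h7 : dg G w ≤ δ := by
    obtain ⟨E, hE, hwE, _, _⟩ := hw
    rw [hdeg]
    exact cp_dg hp hE w hwE
  have h8 := T_all hp h7
  rw [← e1] at h8
  omega

include hp hGI hdeg in
theorem big_of_big (hT : T R C δ G = T R C δ H) {v : V} {j : ℕ} (h : Sz R C δ G v j) :
    ∃ j', Sz R C δ H v j' := by
  by_contra hcon
  push Not at hcon
  have h1 := T_big hp h
  have h2 := T_small hp (dg_sz hp hdeg h) hcon
  have e1 : T R C δ (del H v) = T R C δ (del G v) := gi_W (hGI v) _
  omega

include hp hGI in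
theorem sz_eq {v : V} {j j' : ℕ} (h : Sz R C δ G v j) (h' : Sz R C δ H v j') (g : ℕ → ℕ)
    (hg : ∀ i, i ≤ δ → g i = 0) :
    W R C g G + g (j - 1) + g j' = W R C g H + g (j' - 1) + g j := by
  obtain ⟨D, hD, hv, hc, hb⟩ := h
  obtain ⟨D', hD', hv', hc', hb'⟩ := h'
  have h1 := W_del hp hD hv (by omega) g hg
  have h2 := W_del hp hD' hv' (by omega) g hg
  have e1 : W R C g (del H v) = W R C g (del G v) := gi_W (hGI v) _
  rw [hc] at h1
  rw [hc'] at h2
  omega

theorem choose_step (k : ℕ) (hk : δ + 2 ≤ k) :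
    (k - δ).choose 2 = (k - 1 - δ).choose 2 + (k - 1 - δ) := by
  obtain ⟨t, ht⟩ : ∃ t, k = δ + 1 + t := ⟨k - δ - 1, by omega⟩
  have e1 : k - δ = t + 1 := by omega
  have e2 : k - 1 - δ = t := by omega
  have e3 : (t + 1).choose 2 = t.choose 1 + t.choose 2 := Nat.choose_succ_succ' t 1
  rw [e1, e2, e3, Nat.choose_one_right, add_comm]

include hp hGI in
/-- the difference of the sizes is constant -/
theorem sz_const {v : V} {j j' : ℕ} (h : Sz R C δ G v j) (h' : Sz R C δ H v j') :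
    j' + W R C (fun i => (i - δ).choose 2) G = j + W R C (fun i => (i - δ).choose 2) H := by
  have h1 := sz_eq hp hGI h h' (fun i => (i - δ).choose 2) (fun i hi => by
    show (i - δ).choose 2 = 0
    have : i - δ = 0 := by omega
    rw [this]; rfl)
  obtain ⟨D, hD, hv, hc, hb⟩ := h
  obtain ⟨D', hD', hv', hc', hb'⟩ := h'
  have e1 := choose_step (δ := δ) j hb
  have e2 := choose_step (δ := δ) j' hb'
  omega

include hp hGI in
theorem sn_eq {v : V} {j j' : ℕ} (h : Sz R C δ G v j) (h' : Sz R C δ H v j') (i : ℕ) (hi : δ < i) :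
    sn R C G i + (if j - 1 = i then 1 else 0) + (if j' = i then 1 else 0) =
      sn R C H i + (if j' - 1 = i then 1 else 0) + (if j = i then 1 else 0) := by
  have h1 := sz_eq hp hGI h h' (fun t => if t = i then 1 else 0) (fun t ht => by
    rw [if_neg (by omega)])
  exact h1

include hp hGI hdeg in
/-- the sizes agree, if there is a gap -/
theorem size_main {m : ℕ} (hm : 2 * δ + 3 ≤ m) {v : V} (hv : Sz R C δ G v m)
    (hgap : sn R C G (m - 1) = 0) :
    (∀ w j, Sz R C δ G w j ↔ Sz R C δ H w j) ∧ ∀ i, δ < i → sn R C G i = sn R C H i := by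
  have hδ := one_le_delta hp
  have hGI' : ∀ v, GI (del H v) (del G v) (π v).symm := fun v => gi_symm (hGI v)
  have hT := T_eq hp hGI hdeg hv hm
  obtain ⟨j', hj'⟩ := big_of_big hp hGI hdeg hT hv
  have hjm : j' = m := by
    by_contra hne
    have k1 := sz_const hp hGI hv hj'
    have a1 := sn_eq hp hGI hv hj' (m - 1) (by omega)
    have hj'2 : δ + 2 ≤ j' := by obtain ⟨_, _, _, _, h⟩ := hj'; exact h
    rw [hgap] at a1
    have hne2 : sn R C H (m - 1) ≠ 0 := by
      intro h0
      rw [h0, if_pos rfl, if_neg (show ¬ j' - 1 = m - 1 by omega),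
        if_neg (show ¬ m = m - 1 by omega)] at a1
      omega
    obtain ⟨v2, hv2⟩ := exists_sz hp (m - 1) (by omega) hne2
    obtain ⟨j2, hj2⟩ := big_of_big hp hGI' (fun v => (hdeg v).symm) hT.symm hv2
    have k2 := sz_const hp hGI hj2 hv2
    have b1 := sn_eq hp hGI hv hj' m (by omega)
    have b2 := sn_eq hp hGI hj2 hv2 m (by omega)
    have hj22 : δ + 2 ≤ j2 := by obtain ⟨_, _, _, _, h⟩ := hj2; exact h
    rw [if_neg (show ¬ m - 1 = m by omega), if_neg hne, if_pos rfl] at b1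
    rw [if_neg (show ¬ m - 1 = m by omega), if_neg (show ¬ m - 1 - 1 = m by omega)] at b2
    have hj2m : j2 = m := by
      by_contra h0
      rw [if_neg h0] at b2
      split_ifs at b1 b2 <;> omega
    have hj'm : j' = m - 1 := by omega
    have a2 := sn_eq hp hGI hv hj' (m - 2) (by omega)
    rw [if_neg (show ¬ m - 1 = m - 2 by omega), if_neg (show ¬ j' = m - 2 by omega),
      if_pos (show j' - 1 = m - 2 by omega), if_neg (show ¬ m = m - 2 by omega)] at a2
    obtain ⟨v3, hv3⟩ := exists_sz hp (m - 2) (by omega) (by omega : sn R C G (m - 2) ≠ 0)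
    obtain ⟨j3, hj3⟩ := big_of_big hp hGI hdeg hT hv3
    have k3 := sz_const hp hGI hv3 hj3
    have b3 := sn_eq hp hGI hv3 hj3 m (by omega)
    have hj32 : δ + 2 ≤ j3 := by obtain ⟨_, _, _, _, h⟩ := hj3; exact h
    rw [if_neg (show ¬ m - 2 - 1 = m by omega), if_neg (show ¬ j3 = m by omega),
      if_neg (show ¬ j3 - 1 = m by omega), if_neg (show ¬ m - 2 = m by omega)] at b3
    rw [if_neg (show ¬ j' - 1 = m by omega)] at b1
    omega
  subst hjm
  have k1 := sz_const hp hGI hv hj'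
  have key : ∀ w j, Sz R C δ G w j → Sz R C δ H w j := by
    intro w j hw
    obtain ⟨i, hi⟩ := big_of_big hp hGI hdeg hT hw
    have k2 := sz_const hp hGI hw hi
    have : i = j := by omega
    rw [← this]; exact hi
  have key' : ∀ w j, Sz R C δ H w j → Sz R C δ G w j := by
    intro w j hw
    obtain ⟨i, hi⟩ := big_of_big hp hGI' (fun v => (hdeg v).symm) hT.symm hw
    have k2 := sz_const hp hGI hi hw
    have : i = j := by omega
    rw [← this]; exact hi
  refine ⟨fun w j => ⟨key w j, key' w j⟩, fun i hi => ?_⟩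
  have := sn_eq hp hGI hv hj' i hi
  omega

end pair

end Pool.Agent.TH87.RVP
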